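import Mathlib

/-!
# The coefficients of `(1 - x)^(-1/2)`
-/

set_option autoImplicit false

namespace Pool.Agent.X106.Ball

open Finset PowerSeries

/-- coefficients of `(1-x)^(-1/2)` -/
noncomputable def cc : ℕ → ℝ
  | 0 => 1
  | (k + 1) => cc k * ((2 * k + 1) / (2 * k + 2))

lemma cc_succ (k : ℕ) : cc (k + 1) = cc k * ((2 * k + 1) / (2 * k + 2)) := rfl

lemma cc_pos (k : ℕ) : 0 < cc k := by
  induction k with
  | zero => norm_num [cc]
  | succ k ih => rw [cc_succ]; positivity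

lemma cc_le_one (k : ℕ) : cc k ≤ 1 := by
  induction k with
  | zero => norm_num [cc]
  | succ k ih =>
    rw [cc_succ]
    have h : ((2 * k + 1) / (2 * k + 2) : ℝ) ≤ 1 := by
      rw [div_le_one (by positivity)]; linarith
    have := cc_pos k
    calc cc k * ((2 * k + 1) / (2 * k + 2)) ≤ 1 * 1 := by
          apply mul_le_mul ih h (by positivity) (by norm_num)
      _ = 1 := one_mul 1

lemma cc_sq (k : ℕ) : 1 / (4 * ((k : ℝ) + 1)) ≤ cc (k + 1) ^ 2 := by
  induction k with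
  | zero => norm_num [cc]
  | succ k ih =>
    rw [cc_succ (k + 1)]
    have h1 : (1 / (4 * ((k : ℝ) + 1))) * ((2 * ((k + 1 : ℕ) : ℝ) + 1) / (2 * ((k + 1 : ℕ) : ℝ) + 2)) ^ 2 ≤
        (cc (k + 1) * ((2 * ((k + 1 : ℕ) : ℝ) + 1) / (2 * ((k + 1 : ℕ) : ℝ) + 2))) ^ 2 := by
      rw [mul_pow]
      exact mul_le_mul_of_nonneg_right ih (by positivity)
    refine le_trans ?_ h1
    push_cast
    rw [div_pow, div_mul_div_comm, div_le_div_iff₀ (by positivity) (by positivity)]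
    have : (0 : ℝ) ≤ k := by positivity
    nlinarith [mul_nonneg this this, mul_nonneg (mul_nonneg this this) this]

lemma cc_conv (k : ℕ) : ∑ ij ∈ antidiagonal k, cc ij.1 * cc ij.2 = 1 := by
  set P : PowerSeries ℝ := PowerSeries.mk cc with hP
  have h1 : (1 - X) * (derivative ℝ P) * 2 = P := by
    ext k
    rw [mul_comm _ (2 : PowerSeries ℝ), ← mul_assoc]
    rw [show (2 : PowerSeries ℝ) = C (2 : ℝ) from (map_ofNat (C (R := ℝ)) 2).symm]
    rw [mul_assoc, coeff_C_mul, sub_mul, one_mul, map_sub]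
    cases k with
    | zero =>
      rw [coeff_derivative]
      simp [hP, cc]
    | succ k =>
      rw [coeff_succ_X_mul, coeff_derivative, coeff_derivative]
      simp only [hP, coeff_mk]
      rw [cc_succ (k + 1)]
      push_cast
      field_simp
      ring
  have h2 : (1 - X) * (derivative ℝ (P * P)) = P * P := by
    rw [Derivation.leibniz, smul_eq_mul]
    calc (1 - X) * (P * derivative ℝ P + P * derivative ℝ P)
        = P * ((1 - X) * (derivative ℝ P) * 2) := by ring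
      _ = P * P := by rw [h1]
  have h3 : ∀ k, coeff (k + 1) (P * P) = coeff k (P * P) := by
    intro k
    have h4 : coeff k ((1 - X) * (derivative ℝ (P * P))) = coeff k (P * P) := by rw [h2]
    rw [sub_mul, one_mul, map_sub] at h4
    cases k with
    | zero =>
      rw [coeff_derivative] at h4
      simp at h4
      simpa using h4
    | succ k =>
      rw [coeff_succ_X_mul, coeff_derivative, coeff_derivative] at h4
      push_cast at h4
      have h5 : ((k : ℝ) + 1 + 1) * coeff (k + 1 + 1) (P * P) = ((k : ℝ) + 1 + 1) * coeff (k + 1) (P * P) := by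
        linarith
      exact mul_left_cancel₀ (by positivity) h5
  have h6 : ∀ k, coeff k (P * P) = 1 := by
    intro k
    induction k with
    | zero => simp [coeff_mul, hP, cc]
    | succ k ih => rw [h3, ih]
  have := h6 k
  rw [coeff_mul] at this
  simpa [hP] using this

lemma exists_sum_sq (L : ℝ) : ∃ K : ℕ, L ≤ ∑ k ∈ range K, cc k ^ 2 := by
  have hdiv := Real.tendsto_sum_range_one_div_nat_succ_atTop
  obtain ⟨K, hK⟩ := (hdiv.eventually_ge_atTop (4 * L)).exists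
  refine ⟨K + 1, ?_⟩
  rw [Finset.sum_range_succ']
  have h1 : ∑ k ∈ range K, (1 / (4 * ((k : ℝ) + 1))) ≤ ∑ k ∈ range K, cc (k + 1) ^ 2 :=
    Finset.sum_le_sum (fun k _ => cc_sq k)
  have h2 : ∑ k ∈ range K, (1 / (4 * ((k : ℝ) + 1))) = (∑ k ∈ range K, 1 / ((k : ℝ) + 1)) / 4 := by
    rw [Finset.sum_div]
    apply Finset.sum_congr rfl
    intro k _
    field_simp
  have h3 : 0 ≤ cc 0 ^ 2 := sq_nonneg _
  linarith

/-- the function `(1 - r w)^(-1/2)` as a series -/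
noncomputable def HH (r : ℝ) (w : ℂ) : ℂ := ∑' k : ℕ, ((cc k * r ^ k : ℝ) : ℂ) * w ^ k

/-- its partial sums -/
noncomputable def HN (r : ℝ) (N : ℕ) (w : ℂ) : ℂ := ∑ k ∈ range N, ((cc k * r ^ k : ℝ) : ℂ) * w ^ k

lemma term_le (r : ℝ) (hr0 : 0 ≤ r) (w : ℂ) (hw : ‖w‖ ≤ 1) (k : ℕ) :
    ‖((cc k * r ^ k : ℝ) : ℂ) * w ^ k‖ ≤ r ^ k := by
  rw [norm_mul, norm_pow, Complex.norm_real, Real.norm_eq_abs,
    abs_of_nonneg (mul_nonneg (cc_pos k).le (pow_nonneg hr0 k))]
  calc cc k * r ^ k * ‖w‖ ^ k ≤ 1 * r ^ k * 1 := by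
        apply mul_le_mul _ (pow_le_one₀ (norm_nonneg _) hw) (by positivity) (by positivity)
        exact mul_le_mul_of_nonneg_right (cc_le_one k) (by positivity)
    _ = r ^ k := by ring

lemma summable_term (r : ℝ) (hr0 : 0 ≤ r) (hr1 : r < 1) (w : ℂ) (hw : ‖w‖ ≤ 1) :
    Summable (fun k : ℕ => ‖((cc k * r ^ k : ℝ) : ℂ) * w ^ k‖) :=
  Summable.of_nonneg_of_le (fun _ => norm_nonneg _) (term_le r hr0 w hw)
    (summable_geometric_of_lt_one hr0 hr1)

lemma HH_sq (r : ℝ) (hr0 : 0 ≤ r) (hr1 : r < 1) (w : ℂ) (hw : ‖w‖ ≤ 1) :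
    HH r w * HH r w = (1 - r * w)⁻¹ := by
  have hs := summable_term r hr0 hr1 w hw
  unfold HH
  rw [tsum_mul_tsum_eq_tsum_sum_antidiagonal_of_summable_norm hs hs]
  have hrw : ‖(r : ℂ) * w‖ < 1 := by
    rw [norm_mul, Complex.norm_real, Real.norm_eq_abs, abs_of_nonneg hr0]
    calc r * ‖w‖ ≤ r * 1 := mul_le_mul_of_nonneg_left hw hr0
      _ < 1 := by linarith
  rw [← tsum_geometric_of_norm_lt_one hrw]
  congr 1
  funext k
  have h1 : ∀ ij ∈ antidiagonal k, ((cc ij.1 * r ^ ij.1 : ℝ) : ℂ) * w ^ ij.1 * (((cc ij.2 * r ^ ij.2 : ℝ) : ℂ) * w ^ ij.2)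
      = ((cc ij.1 * cc ij.2 : ℝ) : ℂ) * ((r : ℂ) * w) ^ k := by
    intro ij hij
    rw [HasAntidiagonal.mem_antidiagonal] at hij
    rw [← hij, pow_add, mul_pow, mul_pow]
    push_cast
    ring
  rw [Finset.sum_congr rfl h1, ← Finset.sum_mul, ← Complex.ofReal_sum, cc_conv]
  simp

lemma HH_sub_HN (r : ℝ) (hr0 : 0 ≤ r) (hr1 : r < 1) (N : ℕ) (w : ℂ) (hw : ‖w‖ ≤ 1) :
    ‖HH r w - HN r N w‖ ≤ r ^ N / (1 - r) := by
  have hs := (summable_term r hr0 hr1 w hw).of_norm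
  unfold HH HN
  rw [← hs.sum_add_tsum_nat_add N, add_sub_cancel_left]
  have h1 : HasSum (fun k : ℕ => r ^ (k + N)) (r ^ N / (1 - r)) := by
    have := (hasSum_geometric_of_lt_one hr0 hr1).mul_right (r ^ N)
    rw [show (1 - r)⁻¹ * r ^ N = r ^ N / (1 - r) by field_simp] at this
    refine this.congr_fun ?_ |> fun h => h
    intro k
    rw [pow_add]
  exact tsum_of_norm_bounded h1 (fun k => term_le r hr0 w hw (k + N))

lemma HH_norm_le (r : ℝ) (hr0 : 0 ≤ r) (hr1 : r < 1) (w : ℂ) (hw : ‖w‖ ≤ 1) :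
    ‖HH r w‖ ≤ 1 / (1 - r) := by
  have := HH_sub_HN r hr0 hr1 0 w hw
  simpa [HN] using this

/-- for large `N`, the real part of `HN^2` is positive on the closed disc -/
lemma HN_sq_re_pos (r : ℝ) (hr0 : 0 ≤ r) (hr1 : r < 1) :
    ∃ N0 : ℕ, ∀ N, N0 ≤ N → ∀ w : ℂ, ‖w‖ ≤ 1 → 0 ≤ (HN r N w ^ 2).re := by
  have ht : Filter.Tendsto (fun N : ℕ => r ^ N / (1 - r) * (3 / (1 - r))) Filter.atTop (nhds (0 / (1 - r) * (3 / (1 - r)))) := by
    apply Filter.Tendsto.mul_const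
    apply Filter.Tendsto.div_const
    exact tendsto_pow_atTop_nhds_zero_of_lt_one hr0 hr1
  rw [zero_div, zero_mul] at ht
  obtain ⟨N0, hN0⟩ := Filter.eventually_atTop.1 (ht.eventually_le_const (show (0 : ℝ) < 1 / 2 by norm_num))
  refine ⟨N0, fun N hN w hw => ?_⟩
  have h1r : 0 < 1 - r := by linarith
  have hd := HH_sub_HN r hr0 hr1 N w hw
  have hb := HH_norm_le r hr0 hr1 w hw
  have hsq : HH r w ^ 2 = (1 - r * w)⁻¹ := by rw [sq]; exact HH_sq r hr0 hr1 w hw
  have hrw : ‖(r : ℂ) * w‖ ≤ 1 := by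
    rw [norm_mul, Complex.norm_real, Real.norm_eq_abs, abs_of_nonneg hr0]
    nlinarith [norm_nonneg w]
  have hrw1 : ‖(r : ℂ) * w‖ < 1 := by
    rw [norm_mul, Complex.norm_real, Real.norm_eq_abs, abs_of_nonneg hr0]
    nlinarith [norm_nonneg w]
  -- Re (1 - u)⁻¹ ≥ 1/2
  have hre : 1 / 2 ≤ ((1 - (r : ℂ) * w)⁻¹).re := by
    set u := (r : ℂ) * w
    rw [Complex.inv_re]
    have h3 : 0 < Complex.normSq (1 - u) := by
      rw [Complex.normSq_pos]
      intro h0
      have : u = 1 := by linear_combination -h0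
      rw [this] at hrw1
      simp at hrw1
    rw [le_div_iff₀ h3, Complex.normSq_apply]
    have h4 : u.re ^ 2 + u.im ^ 2 ≤ 1 := by
      have := Complex.sq_norm u
      rw [Complex.normSq_apply] at this
      nlinarith [norm_nonneg u]
    simp only [Complex.sub_re, Complex.one_re, Complex.sub_im, Complex.one_im]
    nlinarith
  have hN1 : r ^ N / (1 - r) ≤ 1 / (1 - r) := by
    apply div_le_div_of_nonneg_right (pow_le_one₀ hr0 hr1.le) h1r.le
  have hHN : ‖HN r N w‖ ≤ 2 / (1 - r) := by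
    calc ‖HN r N w‖ = ‖HH r w - (HH r w - HN r N w)‖ := by congr 1; ring
      _ ≤ ‖HH r w‖ + ‖HH r w - HN r N w‖ := norm_sub_le _ _
      _ ≤ 1 / (1 - r) + 1 / (1 - r) := by linarith
      _ = 2 / (1 - r) := by ring
  have hdiff : ‖HH r w ^ 2 - HN r N w ^ 2‖ ≤ 1 / 2 := by
    have : HH r w ^ 2 - HN r N w ^ 2 = (HH r w - HN r N w) * (HH r w + HN r N w) := by ring
    rw [this, norm_mul]
    calc ‖HH r w - HN r N w‖ * ‖HH r w + HN r N w‖ ≤ r ^ N / (1 - r) * (3 / (1 - r)) := by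
          apply mul_le_mul hd _ (norm_nonneg _) (by positivity)
          calc ‖HH r w + HN r N w‖ ≤ ‖HH r w‖ + ‖HN r N w‖ := norm_add_le _ _
            _ ≤ 1 / (1 - r) + 2 / (1 - r) := by linarith
            _ = 3 / (1 - r) := by ring
      _ ≤ 1 / 2 := hN0 N hN
  have h5 := (Complex.abs_re_le_norm (HH r w ^ 2 - HN r N w ^ 2)).trans hdiff
  rw [Complex.sub_re] at h5
  have h6 := (abs_le.1 h5).2
  rw [hsq] at h6
  linarith

end Pool.Agent.X106.Ball
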