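import Pool.Agent.X106.Ball.Step
import Pool.Agent.Helper704.RB.D

/-!
# Filling the room between `|f|` and a continuous majorant
-/

set_option autoImplicit false

namespace Pool.Agent.X106.Ball

open Finset MeasureTheory Filter Topology

variable {n : ℕ}

/-- the room -/
noncomputable def room (f P : EuclideanSpace ℂ (Fin n) → ℂ) (τ : EuclideanSpace ℂ (Fin n) → ℝ) (b : ℝ)
    (z : EuclideanSpace ℂ (Fin n)) : ℝ :=
  max (min (min (τ z - ‖f z + P z‖) (b - ‖P z‖)) 1) 0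

lemma room_cont {f P : EuclideanSpace ℂ (Fin n) → ℂ} {τ : EuclideanSpace ℂ (Fin n) → ℝ} {b : ℝ}
    (hf : Continuous f) (hP : Continuous P) (hτ : Continuous τ) : Continuous (room f P τ b) := by
  unfold room
  fun_prop

theorem fill (μ : Measure (Metric.sphere (0 : EuclideanSpace ℂ (Fin n)) 1)) [IsFiniteMeasure μ]
    (f : EuclideanSpace ℂ (Fin n) → ℂ) (hf : Continuous f)
    (τ : EuclideanSpace ℂ (Fin n) → ℝ) (hτ : Continuous τ) (hfτ : ∀ z, ‖z‖ = 1 → ‖f z‖ < τ z)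
    (b : ℝ) (hb : 0 < b) (ρ η ε : ℝ) (hρ : 0 ≤ ρ) (hρ1 : ρ < 1) (hη : 0 < η) (hε : 0 < ε) :
    ∃ P : EuclideanSpace ℂ (Fin n) → ℂ, Differentiable ℂ P ∧ PA P ∧
      (∀ z, ‖z‖ ≤ ρ → ‖P z‖ ≤ η) ∧ (∀ z, ‖z‖ = 1 → ‖f z + P z‖ < τ z) ∧
      (∀ z, ‖z‖ = 1 → ‖P z‖ < b) ∧
      (∫ z, room f P τ b z.1 ^ 2 ∂μ) ≤ ε ∧
      (∫ z, ‖P z.1‖ ^ 2 ∂μ) ≤ 2 * ∫ z, (τ z.1 ^ 2 - ‖f z.1‖ ^ 2) ∂μ := by
  obtain ⟨κ, hκ, hstep⟩ := gstep n
  -- state
  let T := {P : EuclideanSpace ℂ (Fin n) → ℂ // Differentiable ℂ P ∧ PA P ∧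
    (∀ z, ‖z‖ = 1 → ‖f z + P z‖ < τ z) ∧ (∀ z, ‖z‖ = 1 → ‖P z‖ < b)}
  let J : T → ℝ := fun P => ∫ z, (2 * ‖f z.1 + P.1 z.1‖ ^ 2 - ‖P.1 z.1‖ ^ 2) ∂μ
  let R : ℕ → T → T → Prop := fun k P P' =>
    (∀ z, ‖z‖ ≤ ρ → ‖P'.1 z - P.1 z‖ ≤ η * (1 / 2) ^ (k + 1)) ∧
    J P + κ * (∫ z, room f P.1 τ b z.1 ^ 2 ∂μ) ≤ J P'
  have hnext : ∀ k P, ∃ P', R k P P' := by
    rintro k ⟨P, hPd, hPA, hP1, hP2⟩
    have hrc := room_cont (b := b) hf hPd.continuous hτ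
    have hrpos : ∀ z, ‖z‖ = 1 → 0 < room f P τ b z := by
      intro z hz
      unfold room
      have h1 := hP1 z hz
      have h2 := hP2 z hz
      apply lt_max_of_lt_left
      apply lt_min (lt_min (by linarith) (by linarith)) one_pos
    obtain ⟨Q, hQd, hQA, hQ1, hQ2, hQ3⟩ := hstep μ (fun z => f z + P z) P (hf.add hPd.continuous)
      hPd.continuous (room f P τ b) hrc (fun z => le_max_right _ _)
      (fun z => max_le (min_le_right _ _) zero_le_one) hrpos ρ (η * (1 / 2) ^ (k + 1)) hρ hρ1 (by positivity)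
    refine ⟨⟨fun z => P z + Q z, hPd.add hQd, hPA.add hQA, ?_, ?_⟩, ?_, ?_⟩
    · intro z hz
      have h1 := hQ1 z hz
      have h2 := hrpos z hz
      have h3 : room f P τ b z ≤ τ z - ‖f z + P z‖ := by
        unfold room
        apply max_le ((min_le_left _ _).trans (min_le_left _ _))
        linarith [hP1 z hz]
      calc ‖f z + (P z + Q z)‖ = ‖(f z + P z) + Q z‖ := by congr 1; ring
        _ ≤ ‖f z + P z‖ + ‖Q z‖ := norm_add_le _ _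
        _ < τ z := by linarith
    · intro z hz
      have h1 := hQ1 z hz
      have h2 := hrpos z hz
      have h3 : room f P τ b z ≤ b - ‖P z‖ := by
        unfold room
        apply max_le ((min_le_left _ _).trans (min_le_right _ _))
        linarith [hP2 z hz]
      calc ‖P z + Q z‖ ≤ ‖P z‖ + ‖Q z‖ := norm_add_le _ _
        _ < b := by linarith
    · intro z hz
      simpa using hQ2 z hz
    · show (∫ z, (2 * ‖f z.1 + P z.1‖ ^ 2 - ‖P z.1‖ ^ 2) ∂μ) + κ * (∫ z, room f P τ b z.1 ^ 2 ∂μ) ≤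
        ∫ z, (2 * ‖f z.1 + (P z.1 + Q z.1)‖ ^ 2 - ‖P z.1 + Q z.1‖ ^ 2) ∂μ
      refine hQ3.trans (le_of_eq ?_)
      congr 1
      ext z
      rw [add_assoc]
  let P0 : T := ⟨fun _ => 0, differentiable_const 0, PA.const 0, fun z hz => by simpa using hfτ z hz,
    fun z _ => by simpa using hb⟩
  obtain ⟨u, hu0, hu⟩ := Helper704.RadBall.exists_seq R hnext P0
  have hzS : ∀ z : Metric.sphere (0 : EuclideanSpace ℂ (Fin n)) 1, ‖z.1‖ = 1 := by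
    intro z; simp
  have hcf : Continuous (fun z : Metric.sphere (0 : EuclideanSpace ℂ (Fin n)) 1 => f z.1) :=
    hf.comp continuous_subtype_val
  have hcτ : Continuous (fun z : Metric.sphere (0 : EuclideanSpace ℂ (Fin n)) 1 => τ z.1) :=
    hτ.comp continuous_subtype_val
  have hcu : ∀ k, Continuous (fun z : Metric.sphere (0 : EuclideanSpace ℂ (Fin n)) 1 => (u k).1 z.1) :=
    fun k => (u k).2.1.continuous.comp continuous_subtype_val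
  have hI1 : ∀ k, Integrable (fun z : Metric.sphere (0 : EuclideanSpace ℂ (Fin n)) 1 =>
      2 * ‖f z.1 + (u k).1 z.1‖ ^ 2 - ‖(u k).1 z.1‖ ^ 2) μ := fun k =>
    integrable_of_cont μ _ ((continuous_const.mul ((hcf.add (hcu k)).norm.pow 2)).sub ((hcu k).norm.pow 2))
  have hI2 : Integrable (fun z : Metric.sphere (0 : EuclideanSpace ℂ (Fin n)) 1 => 2 * τ z.1 ^ 2) μ :=
    integrable_of_cont μ _ (continuous_const.mul (hcτ.pow 2))
  have hI3 : ∀ k, Integrable (fun z : Metric.sphere (0 : EuclideanSpace ℂ (Fin n)) 1 => ‖(u k).1 z.1‖ ^ 2) μ :=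
    fun k => integrable_of_cont μ _ ((hcu k).norm.pow 2)
  -- J is monotone
  have hroom : ∀ k, 0 ≤ ∫ z, room f (u k).1 τ b z.1 ^ 2 ∂μ := fun k => integral_nonneg (fun z => sq_nonneg _)
  have hJmono : ∀ k, J (u 0) + κ * ∑ i ∈ range k, (∫ z, room f (u i).1 τ b z.1 ^ 2 ∂μ) ≤ J (u k) := by
    intro k
    induction k with
    | zero => simp
    | succ k ih =>
      rw [Finset.sum_range_succ, mul_add]
      have := (hu k).2
      linarith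
  have hJle : ∀ k, J (u k) + (∫ z, ‖(u k).1 z.1‖ ^ 2 ∂μ) ≤ ∫ z, 2 * τ z.1 ^ 2 ∂μ := by
    intro k
    show (∫ z, (2 * ‖f z.1 + (u k).1 z.1‖ ^ 2 - ‖(u k).1 z.1‖ ^ 2) ∂μ) + _ ≤ _
    rw [← integral_add (hI1 k) (hI3 k)]
    apply integral_mono ((hI1 k).add (hI3 k)) hI2
    intro z
    have h1 := (u k).2.2.2.1 z.1 (hzS z)
    have h2 := norm_nonneg (f z.1 + (u k).1 z.1)
    show 2 * ‖f z.1 + (u k).1 z.1‖ ^ 2 - ‖(u k).1 z.1‖ ^ 2 + ‖(u k).1 z.1‖ ^ 2 ≤ 2 * τ z.1 ^ 2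
    nlinarith
  have hJ0 : J (u 0) = ∫ z, 2 * ‖f z.1‖ ^ 2 ∂μ := by
    rw [hu0]
    show (∫ z, (2 * ‖f z.1 + (0 : ℂ)‖ ^ 2 - ‖(0 : ℂ)‖ ^ 2) ∂μ) = _
    simp
  -- some stage has small room
  obtain ⟨k, hk⟩ : ∃ k, (∫ z, room f (u k).1 τ b z.1 ^ 2 ∂μ) ≤ ε := by
    by_contra hcon
    push Not at hcon
    have h1 : ∀ k : ℕ, κ * (k * ε) ≤ (∫ z, 2 * τ z.1 ^ 2 ∂μ) - J (u 0) := by
      intro k
      have h2 := hJmono k
      have h3 := hJle k
      have h4 : 0 ≤ ∫ z, ‖(u k).1 z.1‖ ^ 2 ∂μ := integral_nonneg (fun z => sq_nonneg _)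
      have h5 : (k : ℝ) * ε ≤ ∑ i ∈ range k, (∫ z, room f (u i).1 τ b z.1 ^ 2 ∂μ) := by
        have : ∑ i ∈ range k, ε ≤ ∑ i ∈ range k, (∫ z, room f (u i).1 τ b z.1 ^ 2 ∂μ) :=
          Finset.sum_le_sum (fun i _ => (hcon i).le)
        simpa using this
      have h6 : κ * (k * ε) ≤ κ * ∑ i ∈ range k, (∫ z, room f (u i).1 τ b z.1 ^ 2 ∂μ) :=
        mul_le_mul_of_nonneg_left h5 hκ.le
      linarith
    obtain ⟨k, hk⟩ := exists_nat_gt (((∫ z, 2 * τ z.1 ^ 2 ∂μ) - J (u 0)) / (κ * ε))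
    have h2 := h1 k
    rw [div_lt_iff₀ (by positivity)] at hk
    nlinarith
  refine ⟨(u k).1, (u k).2.1, (u k).2.2.1, ?_, (u k).2.2.2.1, (u k).2.2.2.2, hk, ?_⟩
  · intro z hz
    have h1 : ∀ m : ℕ, ‖(u m).1 z‖ ≤ η * (1 - (1 / 2) ^ m) := by
      intro m
      induction m with
      | zero =>
        rw [hu0]
        show ‖(0 : ℂ)‖ ≤ _
        simp
      | succ m ih =>
        have h2 := (hu m).1 z hz
        calc ‖(u (m + 1)).1 z‖ = ‖(u m).1 z + ((u (m + 1)).1 z - (u m).1 z)‖ := by congr 1; ring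
          _ ≤ ‖(u m).1 z‖ + ‖(u (m + 1)).1 z - (u m).1 z‖ := norm_add_le _ _
          _ ≤ η * (1 - (1 / 2) ^ m) + η * (1 / 2) ^ (m + 1) := add_le_add ih h2
          _ = η * (1 - (1 / 2) ^ (m + 1)) := by rw [pow_succ]; ring
    refine (h1 k).trans ?_
    have : (0 : ℝ) ≤ (1 / 2) ^ k := by positivity
    nlinarith
  · have h2 := hJmono k
    have h3 := hJle k
    have h4 : 0 ≤ κ * ∑ i ∈ range k, (∫ z, room f (u i).1 τ b z.1 ^ 2 ∂μ) :=
      mul_nonneg hκ.le (Finset.sum_nonneg (fun i _ => hroom i))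
    have h5 : 2 * ∫ z, (τ z.1 ^ 2 - ‖f z.1‖ ^ 2) ∂μ = (∫ z, 2 * τ z.1 ^ 2 ∂μ) - ∫ z, 2 * ‖f z.1‖ ^ 2 ∂μ := by
      have hI4 : Integrable (fun z : Metric.sphere (0 : EuclideanSpace ℂ (Fin n)) 1 => 2 * ‖f z.1‖ ^ 2) μ :=
        integrable_of_cont μ _ (continuous_const.mul (hcf.norm.pow 2))
      rw [← integral_sub hI2 hI4, ← integral_const_mul]
      congr 1
      ext z
      ring
    rw [h5, ← hJ0]
    linarith

/-- nearly inner functions -/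
theorem nearly_inner (μ : Measure (Metric.sphere (0 : EuclideanSpace ℂ (Fin n)) 1)) [IsFiniteMeasure μ]
    (ε : ℝ) (hε : 0 < ε) :
    ∃ f : EuclideanSpace ℂ (Fin n) → ℂ, Differentiable ℂ f ∧ PA f ∧ ‖f 0‖ ≤ ε ∧
      (∀ z, ‖z‖ = 1 → ‖f z‖ < 1) ∧ (∫ z, (1 - ‖f z.1‖) ^ 2 ∂μ) ≤ ε := by
  obtain ⟨P, hPd, hPA, hP0, hP1, -, hP3, -⟩ := fill μ (fun _ => 0) continuous_const (fun _ => 1)
    continuous_const (fun z _ => by simp) 2 two_pos 0 ε ε le_rfl one_pos hε hε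
  refine ⟨P, hPd, hPA, hP0 0 (by simp), fun z hz => by simpa using hP1 z hz, ?_⟩
  refine le_trans (le_of_eq ?_) hP3
  congr 1
  ext z
  have hz : ‖z.1‖ = 1 := by simp
  have h1 : ‖P z.1‖ < 1 := by simpa using hP1 z.1 hz
  have h2 : room (fun _ => 0) P (fun _ => 1) 2 z.1 = 1 - ‖P z.1‖ := by
    unfold room
    simp only [zero_add]
    have h3 := norm_nonneg (P z.1)
    rw [min_eq_left (by linarith : (1 : ℝ) - ‖P z.1‖ ≤ 2 - ‖P z.1‖), min_eq_left (by linarith),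
      max_eq_left (by linarith)]
  rw [h2]

end Pool.Agent.X106.Ball
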