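import Pool.Agent.X106.Ball.Ratio

/-!
# Unbounded ratios on the sphere
-/

set_option autoImplicit false

namespace Pool.Agent.X106.Ball

open Finset MeasureTheory

variable {n : ℕ}

theorem big_ratio (μ : Measure (Metric.sphere (0 : EuclideanSpace ℂ (Fin n)) 1)) [IsFiniteMeasure μ]
    (hμ : RotInv μ) (hV : 0 < μ.real Set.univ) (L : ℝ) :
    ∃ g : EuclideanSpace ℂ (Fin n) → ℂ, Differentiable ℂ g ∧ PA g ∧ (∀ z, ‖z‖ = 1 → 0 ≤ (g z).re) ∧
      ‖g 0‖ ≤ 2 ∧ L * μ.real Set.univ ≤ ∫ z, ‖g z.1‖ ∂μ := by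
  have hzS : ∀ z : Metric.sphere (0 : EuclideanSpace ℂ (Fin n)) 1, ‖z.1‖ = 1 := by
    intro z; simp
  set V : ℝ := μ.real Set.univ with hVdef
  obtain ⟨K, hK⟩ := exists_sum_sq (2 * (L + 1))
  set r : ℝ := 1 - 1 / (4 * K + 4) with hr
  have hK0 : (0 : ℝ) ≤ K := Nat.cast_nonneg K
  have hfrac : 1 / (4 * (K : ℝ) + 4) ≤ 1 / 4 := by
    apply one_div_le_one_div_of_le <;> linarith
  have hfrac0 : 0 < 1 / (4 * (K : ℝ) + 4) := by positivity
  have hr0 : 0 ≤ r := by rw [hr]; linarith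
  have hr1 : r < 1 := by rw [hr]; linarith
  obtain ⟨N0, hN0⟩ := HN_sq_re_pos r hr0 hr1
  set N : ℕ := max N0 K with hN
  set η : ℝ := V / (2 * (N + 1) ^ 3 * (V + 1)) with hη
  have hN1 : (1 : ℝ) ≤ N + 1 := by
    have : (0 : ℝ) ≤ N := Nat.cast_nonneg N
    linarith
  have hNp : (0 : ℝ) < (N : ℝ) + 1 := by linarith
  have hη0 : 0 < η := by rw [hη]; positivity
  have hηV : η * (2 * (N + 1) ^ 3 * (V + 1)) = V := by
    rw [hη]; field_simp
  have hη1 : η ≤ 1 / 2 := by
    have h1 : (1 : ℝ) ≤ (N + 1) ^ 3 := one_le_pow₀ hN1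
    have h2 : 2 * (V + 1) ≤ 2 * ((N : ℝ) + 1) ^ 3 * (V + 1) := by nlinarith
    have h3 : η * (2 * (V + 1)) ≤ V := by
      calc η * (2 * (V + 1)) ≤ η * (2 * (N + 1) ^ 3 * (V + 1)) := mul_le_mul_of_nonneg_left h2 hη0.le
        _ = V := hηV
    by_contra hc
    push Not at hc
    nlinarith
  obtain ⟨f, hf, hfPA, hf0, hf1, hf2⟩ := nearly_inner μ (η ^ 2) (by positivity)
  have hη2 : η ^ 2 ≤ η := by nlinarith
  have hη4 : η ^ 2 ≤ 1 / 4 := by nlinarith
  have hf0' : ‖f 0‖ ≤ 1 / 4 := hf0.trans hη4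
  have hf1' : ∀ z, ‖z‖ = 1 → ‖f z‖ ≤ 1 := fun z hz => (hf1 z hz).le
  have hcf : Continuous (fun z : Metric.sphere (0 : EuclideanSpace ℂ (Fin n)) 1 => f z.1) :=
    hf.continuous.comp continuous_subtype_val
  -- bound of the defect
  have hdef : ∫ z, (1 - ‖f z.1‖ ^ 2) ∂μ ≤ η * (V + 1) := by
    have h1 : ∫ z, (1 - ‖f z.1‖ ^ 2) ∂μ ≤ ∫ z, (η + (1 / η) * (1 - ‖f z.1‖) ^ 2) ∂μ := by
      apply integral_mono
      · exact integrable_of_cont μ _ (continuous_const.sub (hcf.norm.pow 2))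
      · exact integrable_of_cont μ _ (continuous_const.add (continuous_const.mul ((continuous_const.sub hcf.norm).pow 2)))
      · intro z
        show 1 - ‖f z.1‖ ^ 2 ≤ η + (1 / η) * (1 - ‖f z.1‖) ^ 2
        have hz := hf1' z.1 (hzS z)
        have h0 := norm_nonneg (f z.1)
        set a := 1 - ‖f z.1‖ with ha
        have ha0 : 0 ≤ a := by linarith
        have h2 : 1 - ‖f z.1‖ ^ 2 ≤ 2 * a := by nlinarith
        have h3 : 2 * a ≤ η + (1 / η) * a ^ 2 := by
          have h4 : 0 ≤ (1 / η) * (a - η) ^ 2 := by positivity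
          have h5 : (1 / η) * (a - η) ^ 2 = (1 / η) * a ^ 2 - 2 * a + η := by field_simp; ring
          linarith
        linarith
    have hI : Integrable (fun z : Metric.sphere (0 : EuclideanSpace ℂ (Fin n)) 1 =>
        (1 / η) * (1 - ‖f z.1‖) ^ 2) μ :=
      integrable_of_cont μ _ (continuous_const.mul ((continuous_const.sub hcf.norm).pow 2))
    rw [integral_add (integrable_const _) hI, integral_const, integral_const_mul] at h1
    have h2 : (1 / η) * ∫ z, (1 - ‖f z.1‖) ^ 2 ∂μ ≤ (1 / η) * η ^ 2 :=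
      mul_le_mul_of_nonneg_left hf2 (by positivity)
    have h3 : (1 / η) * η ^ 2 = η := by field_simp
    rw [smul_eq_mul, ← hVdef] at h1
    linarith
  set h : ℕ → ℝ := fun k => cc k * r ^ k with hh
  have hh0 : ∀ k, 0 ≤ h k := fun k => mul_nonneg (cc_pos k).le (pow_nonneg hr0 k)
  have hh1 : ∀ k, h k ≤ 1 := by
    intro k
    calc cc k * r ^ k ≤ 1 * 1 := mul_le_mul (cc_le_one k) (pow_le_one₀ hr0 hr1.le) (pow_nonneg hr0 k) zero_le_one
      _ = 1 := one_mul 1
  have hsum : L + 1 ≤ ∑ k ∈ range N, h k ^ 2 := by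
    have h1 : ∑ k ∈ range K, h k ^ 2 ≤ ∑ k ∈ range N, h k ^ 2 := by
      apply Finset.sum_le_sum_of_subset_of_nonneg
      · intro k hk
        rw [Finset.mem_range] at hk ⊢
        exact lt_of_lt_of_le hk (le_max_right _ _)
      · intro k _ _
        positivity
    have h2 : ∑ k ∈ range K, cc k ^ 2 * (1 / 2) ≤ ∑ k ∈ range K, h k ^ 2 := by
      apply Finset.sum_le_sum
      intro k hk
      rw [Finset.mem_range] at hk
      have h3 : (1 / 2 : ℝ) ≤ (r ^ k) ^ 2 := by
        have h4 := one_add_mul_le_pow (show (-2 : ℝ) ≤ r - 1 by linarith) (k * 2)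
        rw [show 1 + (r - 1) = r by ring] at h4
        rw [← pow_mul]
        refine le_trans ?_ h4
        rw [hr]
        have hkK : (k : ℝ) ≤ K := by exact_mod_cast hk.le
        have h5 : ((k * 2 : ℕ) : ℝ) * (1 / (4 * K + 4)) ≤ 1 / 2 := by
          rw [mul_one_div, div_le_iff₀ (by positivity)]
          push_cast
          linarith
        linarith
      show cc k ^ 2 * (1 / 2) ≤ (cc k * r ^ k) ^ 2
      rw [mul_pow]
      exact mul_le_mul_of_nonneg_left h3 (sq_nonneg _)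
    rw [← Finset.sum_mul] at h2
    linarith
  refine ⟨fun z => HN r N (f z) ^ 2, ?_, ?_, ?_, ?_, ?_⟩
  · unfold HN
    apply Differentiable.pow
    apply Differentiable.fun_sum
    intro k _
    exact (hf.pow k).const_mul _
  · apply PA.pow
    unfold HN
    apply PA.sum
    intro k _
    exact (PA.const _).mul (hfPA.pow k)
  · intro z hz
    exact hN0 N (le_max_left _ _) (f z) (hf1' z hz)
  · have h1 : ‖HN r N (f 0)‖ ≤ 4 / 3 := by
      unfold HN
      calc ‖∑ k ∈ range N, ((cc k * r ^ k : ℝ) : ℂ) * f 0 ^ k‖ ≤ ∑ k ∈ range N, ‖((cc k * r ^ k : ℝ) : ℂ) * f 0 ^ k‖ :=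
            norm_sum_le _ _
        _ ≤ ∑ k ∈ range N, (1 / 4 : ℝ) ^ k := by
            apply Finset.sum_le_sum
            intro k _
            rw [norm_mul, Complex.norm_real, Real.norm_eq_abs, abs_of_nonneg (hh0 k), norm_pow]
            calc cc k * r ^ k * ‖f 0‖ ^ k ≤ 1 * (1 / 4) ^ k := by
                  apply mul_le_mul (hh1 k) (pow_le_pow_left₀ (norm_nonneg _) hf0' k) (by positivity) zero_le_one
              _ = (1 / 4) ^ k := one_mul _
        _ ≤ ∑' k : ℕ, (1 / 4 : ℝ) ^ k :=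
            (summable_geometric_of_lt_one (by norm_num) (by norm_num)).sum_le_tsum _ (fun _ _ => by positivity)
        _ = 4 / 3 := by
            rw [tsum_geometric_of_lt_one (by norm_num) (by norm_num)]; norm_num
    show ‖HN r N (f 0) ^ 2‖ ≤ 2
    rw [norm_pow]
    calc ‖HN r N (f 0)‖ ^ 2 ≤ (4 / 3) ^ 2 := pow_le_pow_left₀ (norm_nonneg _) h1 2
      _ ≤ 2 := by norm_num
  · have hl := l2_lower μ hμ f hf hf1' (by linarith) N h hh0 hh1
    have h1 : ∀ z : Metric.sphere (0 : EuclideanSpace ℂ (Fin n)) 1,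
        ‖∑ k ∈ range N, (h k : ℂ) * f z.1 ^ k‖ ^ 2 = ‖HN r N (f z.1) ^ 2‖ := by
      intro z
      rw [norm_pow]
      rfl
    rw [integral_congr_ae (Filter.Eventually.of_forall h1)] at hl
    refine le_trans ?_ hl
    rw [← hVdef]
    have h2 : (L + 1) * V ≤ (∑ k ∈ range N, h k ^ 2) * V := mul_le_mul_of_nonneg_right hsum hV.le
    have hNN : (0 : ℝ) ≤ N := Nat.cast_nonneg N
    have h3 : (N : ℝ) * N * (‖f 0‖ * V + N * ∫ z, (1 - ‖f z.1‖ ^ 2) ∂μ) ≤ V := by
      have h4 : ‖f 0‖ * V + N * ∫ z, (1 - ‖f z.1‖ ^ 2) ∂μ ≤ (N + 1) * (η * (V + 1)) := by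
        have h5 : ‖f 0‖ * V ≤ η * V := mul_le_mul_of_nonneg_right (hf0.trans hη2) hV.le
        have h6 := mul_le_mul_of_nonneg_left hdef hNN
        nlinarith
      calc (N : ℝ) * N * (‖f 0‖ * V + N * ∫ z, (1 - ‖f z.1‖ ^ 2) ∂μ)
          ≤ (N : ℝ) * N * ((N + 1) * (η * (V + 1))) := mul_le_mul_of_nonneg_left h4 (by positivity)
        _ ≤ ((N : ℝ) + 1) ^ 2 * ((N + 1) * (η * (V + 1))) := by
            apply mul_le_mul_of_nonneg_right _ (by positivity)
            nlinarith
        _ = η * (2 * (N + 1) ^ 3 * (V + 1)) / 2 := by ring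
        _ ≤ V := by rw [hηV]; linarith
    linarith

theorem poly_ratio (μ : Measure (Metric.sphere (0 : EuclideanSpace ℂ (Fin n)) 1)) [IsFiniteMeasure μ]
    (hμ : RotInv μ) (hV : 0 < μ.real Set.univ) (M : ℝ) :
    ∃ p : MvPolynomial (Fin n) ℂ, (MvPolynomial.constantCoeff p).im = 0 ∧
      M * ∫ z, |(MvPolynomial.eval (fun i => z.1 i) p).re| ∂μ < ∫ z, ‖MvPolynomial.eval (fun i => z.1 i) p‖ ∂μ := by
  have hzS : ∀ z : Metric.sphere (0 : EuclideanSpace ℂ (Fin n)) 1, ‖z.1‖ = 1 := by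
    intro z; simp
  set V : ℝ := μ.real Set.univ with hVdef
  obtain ⟨g, hg, hgPA, hgre, hg0, hgL⟩ := big_ratio μ hμ hV (3 * |M| + 5)
  obtain ⟨p0, hp0⟩ := hgPA 1 one_pos
  set c : ℝ := (MvPolynomial.eval (fun i => (0 : EuclideanSpace ℂ (Fin n)) i) p0).im with hc
  set p : MvPolynomial (Fin n) ℂ := p0 - MvPolynomial.C (Complex.I * (c : ℂ)) with hp
  have hcc : |c| ≤ 3 := by
    have h1 := hp0 0 (by simp)
    have h2 : c = (g 0).im - (g 0 - MvPolynomial.eval (fun i => (0 : EuclideanSpace ℂ (Fin n)) i) p0).im := by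
      rw [Complex.sub_im, hc]; ring
    rw [h2]
    refine (abs_sub _ _).trans ?_
    have h3 := (Complex.abs_im_le_norm (g 0)).trans hg0
    have h4 := (Complex.abs_im_le_norm _).trans h1
    linarith
  have hpe : ∀ z : EuclideanSpace ℂ (Fin n), MvPolynomial.eval (fun i => z i) p =
      MvPolynomial.eval (fun i => z i) p0 - Complex.I * (c : ℂ) := by
    intro z
    rw [hp, map_sub, MvPolynomial.eval_C]
  have hcont : Continuous (fun z : Metric.sphere (0 : EuclideanSpace ℂ (Fin n)) 1 =>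
      MvPolynomial.eval (fun i => z.1 i) p) := (continuous_eval p).comp continuous_subtype_val
  have hcg : Continuous (fun z : Metric.sphere (0 : EuclideanSpace ℂ (Fin n)) 1 => g z.1) :=
    hg.continuous.comp continuous_subtype_val
  refine ⟨p, ?_, ?_⟩
  · rw [hp, map_sub, MvPolynomial.constantCoeff_C]
    have h1 : MvPolynomial.constantCoeff p0 = MvPolynomial.eval (fun i => (0 : EuclideanSpace ℂ (Fin n)) i) p0 := by
      have : (fun i => (0 : EuclideanSpace ℂ (Fin n)) i) = (0 : Fin n → ℂ) := by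
        funext i; simp
      rw [this, MvPolynomial.eval_zero]
    rw [h1, Complex.sub_im, ← hc]
    simp
  · -- integral of the real part
    have hre : ∫ z, |(MvPolynomial.eval (fun i => z.1 i) p).re| ∂μ ≤ 3 * V := by
      have h1 : ∫ z, |(MvPolynomial.eval (fun i => z.1 i) p).re| ∂μ ≤ ∫ z, ((g z.1).re + 1) ∂μ := by
        apply integral_mono
        · exact integrable_of_cont μ _ (Complex.continuous_re.comp hcont).abs
        · exact integrable_of_cont μ _ ((Complex.continuous_re.comp hcg).add continuous_const)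
        · intro z
          show |(MvPolynomial.eval (fun i => z.1 i) p).re| ≤ (g z.1).re + 1
          have h2 : (MvPolynomial.eval (fun i => z.1 i) p).re =
              (g z.1).re - (g z.1 - MvPolynomial.eval (fun i => z.1 i) p0).re := by
            rw [hpe, Complex.sub_re, Complex.sub_re]
            simp
          rw [h2]
          refine (abs_sub _ _).trans ?_
          have h3 := (Complex.abs_re_le_norm _).trans (hp0 z.1 (hzS z).le)
          rw [abs_of_nonneg (hgre z.1 (hzS z))]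
          linarith
      have hI1 : Integrable (fun z : Metric.sphere (0 : EuclideanSpace ℂ (Fin n)) 1 => (g z.1).re) μ :=
        integrable_of_cont μ _ (Complex.continuous_re.comp hcg)
      rw [integral_add hI1 (integrable_const _), integral_const, smul_eq_mul, mul_one] at h1
      have h2 : ∫ z, (g z.1).re ∂μ = V * (g 0).re := by
        have h3 := mean_value μ hμ g hg
        have h4 : (∫ z, g z.1 ∂μ).re = ∫ z, (g z.1).re ∂μ := by
          have := integral_re (integrable_of_contC μ _ hcg)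
          simpa using this.symm
        rw [← h4, h3, Complex.re_ofReal_mul]
      have h3 : (g 0).re ≤ 2 := (Complex.re_le_norm _).trans hg0
      rw [h2] at h1
      nlinarith
    have hno : (3 * |M| + 1) * V ≤ ∫ z, ‖MvPolynomial.eval (fun i => z.1 i) p‖ ∂μ := by
      have h1 : ∫ z, (‖g z.1‖ - 4) ∂μ ≤ ∫ z, ‖MvPolynomial.eval (fun i => z.1 i) p‖ ∂μ := by
        apply integral_mono
        · exact integrable_of_cont μ _ (hcg.norm.sub continuous_const)
        · exact integrable_of_cont μ _ hcont.norm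
        · intro z
          show ‖g z.1‖ - 4 ≤ ‖MvPolynomial.eval (fun i => z.1 i) p‖
          have h2 : g z.1 = MvPolynomial.eval (fun i => z.1 i) p +
              (g z.1 - MvPolynomial.eval (fun i => z.1 i) p0) + Complex.I * (c : ℂ) := by
            rw [hpe]; ring
          have h3 : ‖g z.1‖ ≤ ‖MvPolynomial.eval (fun i => z.1 i) p‖ + 1 + 3 := by
            conv_lhs => rw [h2]
            refine (norm_add_le _ _).trans (add_le_add ((norm_add_le _ _).trans (add_le_add le_rfl (hp0 z.1 (hzS z).le))) ?_)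
            rw [norm_mul, Complex.norm_I, one_mul, Complex.norm_real, Real.norm_eq_abs]
            exact hcc
          linarith
      have hI : Integrable (fun z : Metric.sphere (0 : EuclideanSpace ℂ (Fin n)) 1 => ‖g z.1‖) μ :=
        integrable_of_cont μ _ hcg.norm
      rw [integral_sub hI (integrable_const _), integral_const, smul_eq_mul, ← hVdef] at h1
      nlinarith
    have hre0 : 0 ≤ ∫ z, |(MvPolynomial.eval (fun i => z.1 i) p).re| ∂μ :=
      integral_nonneg (fun z => abs_nonneg _)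
    calc M * ∫ z, |(MvPolynomial.eval (fun i => z.1 i) p).re| ∂μ
        ≤ |M| * ∫ z, |(MvPolynomial.eval (fun i => z.1 i) p).re| ∂μ :=
          mul_le_mul_of_nonneg_right (le_abs_self M) hre0
      _ ≤ |M| * (3 * V) := mul_le_mul_of_nonneg_left hre (abs_nonneg M)
      _ < (3 * |M| + 1) * V := by nlinarith
      _ ≤ _ := hno

lemma frozen_integral [Nonempty (Fin n)] (e0 : EuclideanSpace ℂ (Fin n)) (he0 : ‖e0‖ = 1) (F : ℂ → ℝ)
    (hF : Continuous F) (p : MvPolynomial (Fin n) ℂ) :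
    ∫ z in {z : Fin n → ℂ | ∑ i, ‖z i‖ ^ 2 ≤ 1},
      F (MvPolynomial.eval (fun i => z i / ((Real.sqrt (∑ j, ‖z j‖ ^ 2) : ℝ) : ℂ)) p) =
    ∫ ζ, F (MvPolynomial.eval (fun i => ζ.1 i) p) ∂(sph e0 he0) := by
  rw [integral_sph e0 he0 (fun ζ => F (MvPolynomial.eval (fun i => ζ i) p)) (hF.comp (continuous_eval p))]
  apply integral_congr_ae
  apply ae_restrict_of_ae
  have hne : ∀ᵐ x ∂(volume : Measure (Fin n → ℂ)), x ≠ 0 := by
    rw [ae_iff]
    simp
  filter_upwards [hne] with x hx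
  have h1 : (fun i => x i / ((Real.sqrt (∑ j, ‖x j‖ ^ 2) : ℝ) : ℂ)) = fun i => proj e0 x i := by
    funext i
    unfold proj
    rw [if_neg hx, norm_toE]
    show _ = ((Real.sqrt (∑ i, ‖x i‖ ^ 2))⁻¹ : ℝ) * x i
    rw [Complex.ofReal_inv, div_eq_inv_mul]
  rw [h1]

lemma sph_real_pos (e0 : EuclideanSpace ℂ (Fin n)) (he0 : ‖e0‖ = 1) : 0 < (sph e0 he0).real Set.univ := by
  rw [Measure.real, ENNReal.toReal_pos_iff]
  refine ⟨?_, measure_lt_top _ _⟩
  unfold sph
  rw [Measure.map_apply (measurable_projS e0 he0) MeasurableSet.univ, Set.preimage_univ, Measure.restrict_apply_univ]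
  have hopen : IsOpen {z : Fin n → ℂ | ∑ i, ‖z i‖ ^ 2 < 1} := by
    apply isOpen_lt _ continuous_const
    fun_prop
  have hne : {z : Fin n → ℂ | ∑ i, ‖z i‖ ^ 2 < 1}.Nonempty := ⟨0, by simp⟩
  refine lt_of_lt_of_le (hopen.measure_pos volume hne) (measure_mono ?_)
  intro z hz
  have hz' : ∑ i, ‖z i‖ ^ 2 < 1 := hz
  exact hz'.le

end Pool.Agent.X106.Ball
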