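import Mathlib

/-!
# Rotation invariant measures on the sphere and the mean value property
-/

set_option autoImplicit false

namespace Pool.Agent.X106.Ball

open MeasureTheory

variable {n : ℕ}

/-- invariance under `ζ ↦ e^{iθ} ζ` (for integrals of continuous functions) -/
def RotInv (μ : Measure (Metric.sphere (0 : EuclideanSpace ℂ (Fin n)) 1)) : Prop :=
  ∀ (θ : ℝ) (h : EuclideanSpace ℂ (Fin n) → ℂ), Continuous h →
    ∫ ζ, h (Complex.exp (θ * Complex.I) • ζ.1) ∂μ = ∫ ζ, h ζ.1 ∂μ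

lemma norm_circle (θ : ℝ) (ζ : EuclideanSpace ℂ (Fin n)) : ‖Complex.exp (θ * Complex.I) • ζ‖ = ‖ζ‖ := by
  rw [norm_smul, Complex.norm_exp_ofReal_mul_I, one_mul]

theorem mean_value (μ : Measure (Metric.sphere (0 : EuclideanSpace ℂ (Fin n)) 1)) [IsFiniteMeasure μ]
    (hμ : RotInv μ) (h : EuclideanSpace ℂ (Fin n) → ℂ) (hh : Differentiable ℂ h) :
    ∫ ζ, h ζ.1 ∂μ = (μ.real Set.univ : ℂ) * h 0 := by
  have hcont : Continuous (fun p : ℝ × Metric.sphere (0 : EuclideanSpace ℂ (Fin n)) 1 =>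
      h (Complex.exp (p.1 * Complex.I) • p.2.1)) := by
    apply hh.continuous.comp
    fun_prop
  -- slice mean value
  have hslice : ∀ ζ : EuclideanSpace ℂ (Fin n),
      ∫ θ in (0 : ℝ)..(2 * Real.pi), h (Complex.exp (θ * Complex.I) • ζ) = ((2 * Real.pi : ℝ) : ℂ) * h 0 := by
    intro ζ
    have hd : DiffContOnCl ℂ (fun w : ℂ => h (w • ζ)) (Metric.ball 0 |1|) := by
      apply Differentiable.diffContOnCl
      exact hh.comp (differentiable_id.smul_const ζ)
    have h1 := hd.circleAverage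
    rw [Real.circleAverage_def] at h1
    simp only [zero_smul] at h1
    have h2 : ∀ θ : ℝ, h (circleMap 0 1 θ • ζ) = h (Complex.exp (θ * Complex.I) • ζ) := by
      intro θ
      simp [circleMap]
    simp only [h2] at h1
    have hpi : (2 * Real.pi) ≠ 0 := by positivity
    rw [← h1, Complex.real_smul, ← mul_assoc, ← Complex.ofReal_mul, mul_inv_cancel₀ hpi]
    simp
  have hint : Integrable (Function.uncurry fun (θ : ℝ) (ζ : Metric.sphere (0 : EuclideanSpace ℂ (Fin n)) 1) =>
      h (Complex.exp (θ * Complex.I) • ζ.1)) ((volume.restrict (Set.Ioc 0 (2 * Real.pi))).prod μ) := by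
    obtain ⟨C, hC⟩ := (isCompact_closedBall (0 : EuclideanSpace ℂ (Fin n)) 1).exists_bound_of_continuousOn
      hh.continuous.continuousOn
    apply Integrable.of_bound hcont.aestronglyMeasurable C
    filter_upwards with p
    apply hC
    rw [mem_closedBall_zero_iff]
    have : ‖p.2.1‖ = 1 := by simp
    show ‖Complex.exp (p.1 * Complex.I) • p.2.1‖ ≤ 1
    rw [norm_circle, this]
  have h1 : ∫ θ in Set.Ioc (0 : ℝ) (2 * Real.pi), (∫ ζ, h (Complex.exp (θ * Complex.I) • ζ.1) ∂μ) =
      ∫ ζ, (∫ θ in Set.Ioc (0 : ℝ) (2 * Real.pi), h (Complex.exp (θ * Complex.I) • ζ.1)) ∂μ :=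
    integral_integral_swap hint
  have h2 : ∫ θ in Set.Ioc (0 : ℝ) (2 * Real.pi), (∫ ζ, h (Complex.exp (θ * Complex.I) • ζ.1) ∂μ) =
      ((2 * Real.pi : ℝ) : ℂ) * ∫ ζ, h ζ.1 ∂μ := by
    rw [setIntegral_congr_fun measurableSet_Ioc (fun θ _ => hμ θ h hh.continuous)]
    rw [setIntegral_const, Complex.real_smul]
    congr 1
    rw [Measure.real, Real.volume_Ioc, sub_zero, ENNReal.toReal_ofReal (by positivity)]
  have h3 : ∫ ζ, (∫ θ in Set.Ioc (0 : ℝ) (2 * Real.pi), h (Complex.exp (θ * Complex.I) • ζ.1)) ∂μ =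
      ∫ _ζ : Metric.sphere (0 : EuclideanSpace ℂ (Fin n)) 1, ((2 * Real.pi : ℝ) : ℂ) * h 0 ∂μ := by
    apply integral_congr_ae
    filter_upwards with ζ
    rw [← intervalIntegral.integral_of_le (by positivity)]
    exact hslice ζ.1
  rw [h2, h3, integral_const, Complex.real_smul] at h1
  have hpi : ((2 * Real.pi : ℝ) : ℂ) ≠ 0 := by
    exact_mod_cast (by positivity : (2 * Real.pi) ≠ 0)
  apply mul_left_cancel₀ hpi
  rw [h1]
  ring

/-- the map to Euclidean space -/
noncomputable def toE (x : Fin n → ℂ) : EuclideanSpace ℂ (Fin n) := WithLp.toLp 2 x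

lemma continuous_toE : Continuous (toE : (Fin n → ℂ) → EuclideanSpace ℂ (Fin n)) :=
  (PiLp.continuousLinearEquiv 2 ℂ (fun _ : Fin n => ℂ)).symm.continuous

lemma norm_toE (x : Fin n → ℂ) : ‖toE x‖ = Real.sqrt (∑ i, ‖x i‖ ^ 2) := by
  unfold toE
  rw [EuclideanSpace.norm_eq]

lemma toE_eq_zero (x : Fin n → ℂ) : toE x = 0 ↔ x = 0 := by
  unfold toE
  constructor
  · intro h
    have : WithLp.ofLp (WithLp.toLp 2 x : EuclideanSpace ℂ (Fin n)) = WithLp.ofLp (0 : EuclideanSpace ℂ (Fin n)) := by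
      rw [h]
    simpa using this
  · rintro rfl
    rfl

/-- radial projection -/
noncomputable def proj (e0 : EuclideanSpace ℂ (Fin n)) (x : Fin n → ℂ) : EuclideanSpace ℂ (Fin n) :=
  open Classical in if x = 0 then e0 else ((‖toE x‖⁻¹ : ℝ) : ℂ) • toE x

lemma proj_mem (e0 : EuclideanSpace ℂ (Fin n)) (he0 : ‖e0‖ = 1) (x : Fin n → ℂ) :
    proj e0 x ∈ Metric.sphere (0 : EuclideanSpace ℂ (Fin n)) 1 := by
  rw [mem_sphere_zero_iff_norm]
  unfold proj
  by_cases hx : x = 0
  · simp [hx, he0]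
  · rw [if_neg hx, norm_smul, Complex.norm_real, norm_inv, norm_norm]
    exact inv_mul_cancel₀ (norm_ne_zero_iff.2 (fun h => hx ((toE_eq_zero x).1 h)))

lemma measurable_proj (e0 : EuclideanSpace ℂ (Fin n)) : Measurable (proj e0) := by
  unfold proj
  apply Measurable.ite (measurableSet_singleton 0) measurable_const
  have h1 : Measurable fun x : Fin n → ℂ => ((‖toE x‖⁻¹ : ℝ) : ℂ) :=
    Complex.measurable_ofReal.comp (continuous_toE.norm.measurable.inv)
  exact h1.smul continuous_toE.measurable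

/-- the closed unit ball in coordinates -/
def DD (n : ℕ) : Set (Fin n → ℂ) := {z : Fin n → ℂ | ∑ i, ‖z i‖ ^ 2 ≤ 1}

lemma DD_closed : IsClosed (DD n) := by
  apply isClosed_le _ continuous_const
  fun_prop

lemma DD_compact : IsCompact (DD n) := by
  apply Metric.isCompact_of_isClosed_isBounded DD_closed
  apply Metric.isBounded_closedBall.subset (s := DD n) (t := Metric.closedBall (0 : Fin n → ℂ) 1)
  intro z hz
  rw [mem_closedBall_zero_iff]
  rw [pi_norm_le_iff_of_nonneg zero_le_one]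
  intro i
  have h1 : ‖z i‖ ^ 2 ≤ ∑ i, ‖z i‖ ^ 2 :=
    Finset.single_le_sum (f := fun i => ‖z i‖ ^ 2) (fun _ _ => sq_nonneg _) (Finset.mem_univ i)
  have h2 : ∑ i, ‖z i‖ ^ 2 ≤ 1 := hz
  nlinarith [norm_nonneg (z i)]

/-- the sphere measure -/
noncomputable def sph (e0 : EuclideanSpace ℂ (Fin n)) (he0 : ‖e0‖ = 1) :
    Measure (Metric.sphere (0 : EuclideanSpace ℂ (Fin n)) 1) :=
  Measure.map (fun x => (⟨proj e0 x, proj_mem e0 he0 x⟩ : Metric.sphere (0 : EuclideanSpace ℂ (Fin n)) 1))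
    (volume.restrict (DD n))

lemma measurable_projS (e0 : EuclideanSpace ℂ (Fin n)) (he0 : ‖e0‖ = 1) :
    Measurable (fun x => (⟨proj e0 x, proj_mem e0 he0 x⟩ : Metric.sphere (0 : EuclideanSpace ℂ (Fin n)) 1)) :=
  (measurable_proj e0).subtype_mk

instance sph_finite (e0 : EuclideanSpace ℂ (Fin n)) (he0 : ‖e0‖ = 1) : IsFiniteMeasure (sph e0 he0) := by
  have : IsFiniteMeasure (volume.restrict (DD n)) := by
    constructor
    rw [Measure.restrict_apply_univ]
    exact DD_compact.measure_lt_top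
  exact Measure.isFiniteMeasure_map _ _

lemma integral_sph {G : Type*} [NormedAddCommGroup G] [NormedSpace ℝ G]
    (e0 : EuclideanSpace ℂ (Fin n)) (he0 : ‖e0‖ = 1)
    (h : EuclideanSpace ℂ (Fin n) → G) (hh : Continuous h) :
    ∫ ζ, h ζ.1 ∂(sph e0 he0) = ∫ x in DD n, h (proj e0 x) := by
  have hc : Continuous (fun ζ : Metric.sphere (0 : EuclideanSpace ℂ (Fin n)) 1 => h ζ.1) :=
    hh.comp continuous_subtype_val
  unfold sph
  rw [integral_map (measurable_projS e0 he0).aemeasurable hc.aestronglyMeasurable]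

lemma sph_rotInv [Nonempty (Fin n)] (e0 : EuclideanSpace ℂ (Fin n)) (he0 : ‖e0‖ = 1) : RotInv (sph e0 he0) := by
  intro θ h hh
  have hh2 : Continuous (fun ζ : EuclideanSpace ℂ (Fin n) => h (Complex.exp (θ * Complex.I) • ζ)) :=
    hh.comp (by fun_prop)
  rw [integral_sph e0 he0 _ hh2, integral_sph e0 he0 _ hh]
  set c : Circle := Circle.exp θ with hc
  have hcc : (c : ℂ) = Complex.exp (θ * Complex.I) := Circle.coe_exp θ
  set Rm : (Fin n → ℂ) → (Fin n → ℂ) := fun x i => rotation c (x i) with hRm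
  have hRapp : ∀ x i, Rm x i = (c : ℂ) * x i := fun x i => rfl
  have hmp : MeasurePreserving Rm (volume : Measure (Fin n → ℂ)) volume :=
    volume_preserving_pi (fun _ => (rotation c).measurePreserving)
  have hcnorm : ‖(c : ℂ)‖ = 1 := Circle.norm_coe c
  have hc0 : (c : ℂ) ≠ 0 := by
    intro h0; rw [h0, norm_zero] at hcnorm; norm_num at hcnorm
  have hemb : MeasurableEmbedding Rm := by
    apply Continuous.measurableEmbedding
    · apply continuous_pi
      intro i
      simp only [hRapp]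
      fun_prop
    · intro x y hxy
      funext i
      have := congrFun hxy i
      rw [hRapp, hRapp] at this
      exact mul_left_cancel₀ hc0 this
  have hDD : ∀ x, Rm x ∈ DD n ↔ x ∈ DD n := by
    intro x
    unfold DD
    simp only [Set.mem_ofPred_eq, hRapp, norm_mul, hcnorm, one_mul]
  have htoE : ∀ x, toE (Rm x) = (c : ℂ) • toE x := fun x => rfl
  have hproj : ∀ x, x ≠ 0 → proj e0 (Rm x) = (c : ℂ) • proj e0 x := by
    intro x hx
    have hRx : Rm x ≠ 0 := by
      intro h0
      apply hx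
      funext i
      have := congrFun h0 i
      rw [hRapp] at this
      simpa [hc0] using this
    unfold proj
    rw [if_neg hx, if_neg hRx, htoE, norm_smul, hcnorm, one_mul, smul_comm]
  rw [← integral_indicator DD_closed.measurableSet, ← integral_indicator DD_closed.measurableSet]
  rw [← hmp.integral_comp hemb (Set.indicator (DD n) fun x => h (proj e0 x))]
  apply integral_congr_ae
  have hne : ∀ᵐ x ∂(volume : Measure (Fin n → ℂ)), x ≠ 0 := by
    rw [ae_iff]
    simp
  filter_upwards [hne] with x hx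
  by_cases hxD : x ∈ DD n
  · rw [Set.indicator_of_mem hxD, Set.indicator_of_mem ((hDD x).2 hxD)]
    show h (Complex.exp (θ * Complex.I) • proj e0 x) = h (proj e0 (Rm x))
    rw [hproj x hx, hcc]
  · rw [Set.indicator_of_notMem hxD, Set.indicator_of_notMem (fun h => hxD ((hDD x).1 h))]

end Pool.Agent.X106.Ball
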