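import Pool.Agent.Helper704.RB.C

/-!
# Uniform limits of polynomials on the closed ball
-/

set_option autoImplicit false

namespace Pool.Agent.X106.Ball

open Finset

variable {n : ℕ}

/-- `f` is a uniform limit of polynomials on the closed unit ball -/
def PA (f : EuclideanSpace ℂ (Fin n) → ℂ) : Prop :=
  ∀ ε : ℝ, 0 < ε → ∃ p : MvPolynomial (Fin n) ℂ, ∀ z : EuclideanSpace ℂ (Fin n), ‖z‖ ≤ 1 →
    ‖f z - MvPolynomial.eval (fun i => z i) p‖ ≤ ε

lemma continuous_eval (p : MvPolynomial (Fin n) ℂ) :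
    Continuous (fun z : EuclideanSpace ℂ (Fin n) => MvPolynomial.eval (fun i => z i) p) := by
  have h1 : Continuous (fun z : EuclideanSpace ℂ (Fin n) => (fun i => z i : Fin n → ℂ)) := by
    fun_prop
  exact (MvPolynomial.continuous_eval p).comp h1

lemma eval_bdd (p : MvPolynomial (Fin n) ℂ) :
    ∃ C : ℝ, 0 ≤ C ∧ ∀ z : EuclideanSpace ℂ (Fin n), ‖z‖ ≤ 1 → ‖MvPolynomial.eval (fun i => z i) p‖ ≤ C := by
  obtain ⟨C, hC⟩ := (isCompact_closedBall (0 : EuclideanSpace ℂ (Fin n)) 1).exists_bound_of_continuousOn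
    (continuous_eval p).continuousOn
  refine ⟨max C 0, le_max_right _ _, fun z hz => (hC z (by simpa using hz)).trans (le_max_left _ _)⟩

lemma PA.bdd {f : EuclideanSpace ℂ (Fin n) → ℂ} (hf : PA f) :
    ∃ C : ℝ, 0 ≤ C ∧ ∀ z : EuclideanSpace ℂ (Fin n), ‖z‖ ≤ 1 → ‖f z‖ ≤ C := by
  obtain ⟨p, hp⟩ := hf 1 one_pos
  obtain ⟨C, hC0, hC⟩ := eval_bdd p
  refine ⟨C + 1, by linarith, fun z hz => ?_⟩
  calc ‖f z‖ = ‖(f z - MvPolynomial.eval (fun i => z i) p) + MvPolynomial.eval (fun i => z i) p‖ := by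
        congr 1; ring
    _ ≤ ‖f z - MvPolynomial.eval (fun i => z i) p‖ + ‖MvPolynomial.eval (fun i => z i) p‖ := norm_add_le _ _
    _ ≤ 1 + C := add_le_add (hp z hz) (hC z hz)
    _ = C + 1 := by ring

lemma PA.poly (p : MvPolynomial (Fin n) ℂ) : PA (fun z => MvPolynomial.eval (fun i => z i) p) :=
  fun ε hε => ⟨p, fun z _ => by simpa using hε.le⟩

lemma PA.const (c : ℂ) : PA (fun _ : EuclideanSpace ℂ (Fin n) => c) := by
  have := PA.poly (n := n) (MvPolynomial.C c)
  simpa using this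

lemma PA.add {f g : EuclideanSpace ℂ (Fin n) → ℂ} (hf : PA f) (hg : PA g) : PA (fun z => f z + g z) := by
  intro ε hε
  obtain ⟨p, hp⟩ := hf (ε / 2) (by positivity)
  obtain ⟨q, hq⟩ := hg (ε / 2) (by positivity)
  refine ⟨p + q, fun z hz => ?_⟩
  rw [map_add]
  calc ‖f z + g z - (MvPolynomial.eval (fun i => z i) p + MvPolynomial.eval (fun i => z i) q)‖
      = ‖(f z - MvPolynomial.eval (fun i => z i) p) + (g z - MvPolynomial.eval (fun i => z i) q)‖ := by
        congr 1; ring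
    _ ≤ ε / 2 + ε / 2 := (norm_add_le _ _).trans (add_le_add (hp z hz) (hq z hz))
    _ = ε := by ring

lemma PA.mul {f g : EuclideanSpace ℂ (Fin n) → ℂ} (hf : PA f) (hg : PA g) : PA (fun z => f z * g z) := by
  intro ε hε
  obtain ⟨C, hC0, hC⟩ := hf.bdd
  obtain ⟨D, hD0, hD⟩ := hg.bdd
  set η : ℝ := min 1 (ε / (C + D + 1)) with hη
  have hη0 : 0 < η := by positivity
  have hη1 : η ≤ 1 := min_le_left _ _
  have hη2 : η * (C + D + 1) ≤ ε := by
    have := min_le_right 1 (ε / (C + D + 1))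
    calc η * (C + D + 1) ≤ ε / (C + D + 1) * (C + D + 1) := mul_le_mul_of_nonneg_right this (by positivity)
      _ = ε := by field_simp
  obtain ⟨p, hp⟩ := hf η hη0
  obtain ⟨q, hq⟩ := hg η hη0
  refine ⟨p * q, fun z hz => ?_⟩
  rw [map_mul]
  set P := MvPolynomial.eval (fun i => z i) p
  set Q := MvPolynomial.eval (fun i => z i) q
  have hp' := hp z hz
  have hq' := hq z hz
  have hP : ‖P‖ ≤ C + η := by
    calc ‖P‖ = ‖f z - (f z - P)‖ := by congr 1; ring
      _ ≤ ‖f z‖ + ‖f z - P‖ := norm_sub_le _ _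
      _ ≤ C + η := add_le_add (hC z hz) hp'
  calc ‖f z * g z - P * Q‖ = ‖(f z - P) * g z + P * (g z - Q)‖ := by congr 1; ring
    _ ≤ ‖f z - P‖ * ‖g z‖ + ‖P‖ * ‖g z - Q‖ := by
        refine (norm_add_le _ _).trans ?_
        rw [norm_mul, norm_mul]
    _ ≤ η * D + (C + η) * η := by
        apply add_le_add
        · exact mul_le_mul hp' (hD z hz) (norm_nonneg _) hη0.le
        · exact mul_le_mul hP hq' (norm_nonneg _) (by positivity)
    _ ≤ η * (C + D + 1) := by nlinarith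
    _ ≤ ε := hη2

lemma PA.pow {f : EuclideanSpace ℂ (Fin n) → ℂ} (hf : PA f) (k : ℕ) : PA (fun z => f z ^ k) := by
  induction k with
  | zero => simpa using PA.const (n := n) 1
  | succ k ih => simpa [pow_succ] using ih.mul hf

lemma PA.sum {ι : Type*} (s : Finset ι) (f : ι → EuclideanSpace ℂ (Fin n) → ℂ)
    (h : ∀ i ∈ s, PA (f i)) : PA (fun z => ∑ i ∈ s, f i z) := by
  classical
  induction s using Finset.induction_on with
  | empty => simpa using PA.const (n := n) 0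
  | insert a s ha ih =>
    simp only [Finset.sum_insert ha]
    exact (h a (Finset.mem_insert_self a s)).add (ih (fun i hi => h i (Finset.mem_insert_of_mem hi)))

lemma PA.linn (a : EuclideanSpace ℂ (Fin n)) : PA (fun z => inner ℂ a z) := by
  have h1 : (fun z : EuclideanSpace ℂ (Fin n) => (inner ℂ a z : ℂ)) =
      fun z => ∑ i, (starRingEnd ℂ) (a i) * MvPolynomial.eval (fun i => z i) (MvPolynomial.X i) := by
    funext z
    rw [PiLp.inner_apply]
    apply Finset.sum_congr rfl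
    intro i _
    rw [MvPolynomial.eval_X]
    simp [mul_comm]
  rw [h1]
  exact PA.sum _ _ (fun i _ => (PA.const _).mul (PA.poly _))

/-- limits of PA functions are PA -/
lemma PA.of_approx {f : EuclideanSpace ℂ (Fin n) → ℂ}
    (h : ∀ ε : ℝ, 0 < ε → ∃ g : EuclideanSpace ℂ (Fin n) → ℂ, PA g ∧ ∀ z, ‖z‖ ≤ 1 → ‖f z - g z‖ ≤ ε) :
    PA f := by
  intro ε hε
  obtain ⟨g, hg, hfg⟩ := h (ε / 2) (by positivity)
  obtain ⟨p, hp⟩ := hg (ε / 2) (by positivity)
  refine ⟨p, fun z hz => ?_⟩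
  calc ‖f z - MvPolynomial.eval (fun i => z i) p‖ = ‖(f z - g z) + (g z - MvPolynomial.eval (fun i => z i) p)‖ := by
        congr 1; ring
    _ ≤ ε / 2 + ε / 2 := (norm_add_le _ _).trans (add_le_add (hfg z hz) (hp z hz))
    _ = ε := by ring

/-- exponential of a small function -/
lemma PA.exp_small {f : EuclideanSpace ℂ (Fin n) → ℂ} (hf : PA f)
    (hsm : ∀ z : EuclideanSpace ℂ (Fin n), ‖z‖ ≤ 1 → ‖f z‖ ≤ 1 / 2) : PA (fun z => Complex.exp (f z)) := by
  apply PA.of_approx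
  intro ε hε
  have ht : Filter.Tendsto (fun m : ℕ => (1 / 2 : ℝ) ^ m * Real.exp (1 / 2)) Filter.atTop (nhds (0 * Real.exp (1 / 2))) :=
    (tendsto_pow_atTop_nhds_zero_of_lt_one (by norm_num) (by norm_num)).mul_const _
  rw [zero_mul] at ht
  obtain ⟨m, hm⟩ := (ht.eventually_le_const hε).exists
  refine ⟨fun z => ∑ k ∈ range m, f z ^ k / (k.factorial : ℂ), ?_, fun z hz => ?_⟩
  · apply PA.sum
    intro k _
    have := (hf.pow k).mul (PA.const (n := n) ((k.factorial : ℂ)⁻¹))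
    simpa [div_eq_mul_inv] using this
  · refine (Complex.norm_exp_sub_sum_le_norm_mul_exp (f z) m).trans (le_trans ?_ hm)
    have h1 := hsm z hz
    gcongr

/-- the exponential of a PA function is PA -/
lemma PA.exp {f : EuclideanSpace ℂ (Fin n) → ℂ} (hf : PA f) : PA (fun z => Complex.exp (f z)) := by
  obtain ⟨C, hC0, hC⟩ := hf.bdd
  obtain ⟨N, hN⟩ := exists_nat_gt (2 * C)
  have hN1 : (0 : ℝ) < N := by linarith
  have hN0 : (N : ℂ) ≠ 0 := by exact_mod_cast hN1.ne'
  have h1 : PA (fun z => Complex.exp (f z * (N : ℂ)⁻¹)) := by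
    apply PA.exp_small (hf.mul (PA.const _))
    intro z hz
    rw [norm_mul, norm_inv, Complex.norm_natCast]
    rw [← div_eq_mul_inv, div_le_iff₀ hN1]
    have := hC z hz
    linarith
  have h2 := h1.pow N
  have h3 : (fun z => Complex.exp (f z)) = fun z => Complex.exp (f z * (N : ℂ)⁻¹) ^ N := by
    funext z
    rw [← Complex.exp_nat_mul]
    congr 1
    field_simp
  rw [h3]
  exact h2

lemma PA.ee (M : ℕ) (a : EuclideanSpace ℂ (Fin n)) : PA (Helper704.RadBall.ee M a) := by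
  unfold Helper704.RadBall.ee
  apply PA.exp
  apply (PA.const _).mul
  have := (PA.linn a).add (PA.const (n := n) (-(((‖a‖ ^ 2 + 1 : ℝ) : ℂ) / 2)))
  simpa [sub_eq_add_neg] using this

lemma PA.pert (δ : ℝ) (φ : EuclideanSpace ℂ (Fin n) → ℝ) (M : ℕ)
    (ω : Helper704.RadBall.box n M → Bool) : PA (Helper704.RadBall.pert δ φ M ω) := by
  unfold Helper704.RadBall.pert Helper704.RadBall.ss
  apply PA.sum
  intro m _
  exact (PA.const _).mul ((PA.const _).mul (PA.ee _ _))

end Pool.Agent.X106.Ball
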