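import Pool.Agent.X106.Ball.Fill
import Pool.Agent.X106.Ball.Mean
import Pool.Agent.X106.Ball.Coef

/-!
# Functions with nonnegative real part and large `L^1` norm on the sphere
-/

set_option autoImplicit false

namespace Pool.Agent.X106.Ball

open Finset MeasureTheory

variable {n : ℕ}

lemma integrable_of_contC (μ : Measure (Metric.sphere (0 : EuclideanSpace ℂ (Fin n)) 1)) [IsFiniteMeasure μ]
    (g : Metric.sphere (0 : EuclideanSpace ℂ (Fin n)) 1 → ℂ) (hg : Continuous g) : Integrable g μ :=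
  hg.integrable_of_hasCompactSupport (HasCompactSupport.of_compactSpace g)

section pair

variable (μ : Measure (Metric.sphere (0 : EuclideanSpace ℂ (Fin n)) 1)) [IsFiniteMeasure μ]
  (hμ : RotInv μ) (f : EuclideanSpace ℂ (Fin n) → ℂ) (hf : Differentiable ℂ f)
  (hf1 : ∀ z, ‖z‖ = 1 → ‖f z‖ ≤ 1) (hf0 : ‖f 0‖ ≤ 1)

include hμ hf hf1 hf0 in
lemma pair_bound (k d : ℕ) (hd : d ≠ 0) :
    ‖∫ z, f z.1 ^ (k + d) * (starRingEnd ℂ) (f z.1 ^ k) ∂μ‖ ≤
      ‖f 0‖ * μ.real Set.univ + k * ∫ z, (1 - ‖f z.1‖ ^ 2) ∂μ := by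
  have hzS : ∀ z : Metric.sphere (0 : EuclideanSpace ℂ (Fin n)) 1, ‖z.1‖ = 1 := by
    intro z; simp
  have hcf : Continuous (fun z : Metric.sphere (0 : EuclideanSpace ℂ (Fin n)) 1 => f z.1) :=
    hf.continuous.comp continuous_subtype_val
  have h1 : ∀ z : Metric.sphere (0 : EuclideanSpace ℂ (Fin n)) 1,
      f z.1 ^ (k + d) * (starRingEnd ℂ) (f z.1 ^ k) =
        f z.1 ^ d - f z.1 ^ d * ((1 - ‖f z.1‖ ^ (2 * k) : ℝ) : ℂ) := by
    intro z
    have h2 : f z.1 ^ k * (starRingEnd ℂ) (f z.1 ^ k) = ((‖f z.1‖ ^ (2 * k) : ℝ) : ℂ) := by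
      rw [Complex.mul_conj, Complex.normSq_eq_norm_sq, norm_pow]
      push_cast
      ring
    rw [pow_add]
    push_cast
    push_cast at h2
    linear_combination (f z.1 ^ d) * h2
  have hc1 : Continuous (fun z : Metric.sphere (0 : EuclideanSpace ℂ (Fin n)) 1 => f z.1 ^ d) := hcf.pow d
  have hc2 : Continuous (fun z : Metric.sphere (0 : EuclideanSpace ℂ (Fin n)) 1 =>
      f z.1 ^ d * ((1 - ‖f z.1‖ ^ (2 * k) : ℝ) : ℂ)) :=
    hc1.mul (Complex.continuous_ofReal.comp (continuous_const.sub (hcf.norm.pow _)))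
  rw [integral_congr_ae (Filter.Eventually.of_forall h1),
    integral_sub (integrable_of_contC μ _ hc1) (integrable_of_contC μ _ hc2)]
  refine (norm_sub_le _ _).trans (add_le_add ?_ ?_)
  · have hm := mean_value μ hμ (fun z => f z ^ d) (hf.pow d)
    rw [hm, norm_mul, Complex.norm_real, Real.norm_eq_abs, abs_of_nonneg measureReal_nonneg, norm_pow,
      mul_comm]
    apply mul_le_mul_of_nonneg_right _ measureReal_nonneg
    calc ‖f 0‖ ^ d ≤ ‖f 0‖ ^ 1 := pow_le_pow_of_le_one (norm_nonneg _) hf0 (Nat.one_le_iff_ne_zero.2 hd)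
      _ = ‖f 0‖ := pow_one _
  · refine (norm_integral_le_integral_norm _).trans ?_
    rw [← integral_const_mul]
    apply integral_mono
    · exact (integrable_of_contC μ _ hc2).norm
    · exact (integrable_of_cont μ _ (continuous_const.sub (hcf.norm.pow 2))).const_mul _
    · intro z
      show ‖f z.1 ^ d * ((1 - ‖f z.1‖ ^ (2 * k) : ℝ) : ℂ)‖ ≤ k * (1 - ‖f z.1‖ ^ 2)
      have hz := hf1 z.1 (hzS z)
      have h0 := norm_nonneg (f z.1)
      have hb : 1 - k * (1 - ‖f z.1‖ ^ 2) ≤ ‖f z.1‖ ^ (2 * k) := by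
        have := one_add_mul_le_pow (show (-2 : ℝ) ≤ ‖f z.1‖ ^ 2 - 1 by nlinarith) k
        rw [pow_mul]
        rw [show 1 + (‖f z.1‖ ^ 2 - 1) = ‖f z.1‖ ^ 2 by ring] at this
        linarith
      have hb2 : ‖f z.1‖ ^ (2 * k) ≤ 1 := pow_le_one₀ h0 hz
      rw [norm_mul, norm_pow, Complex.norm_real, Real.norm_eq_abs, abs_of_nonneg (by linarith)]
      calc ‖f z.1‖ ^ d * (1 - ‖f z.1‖ ^ (2 * k)) ≤ 1 * (1 - ‖f z.1‖ ^ (2 * k)) :=
            mul_le_mul_of_nonneg_right (pow_le_one₀ h0 hz) (by linarith)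
        _ ≤ k * (1 - ‖f z.1‖ ^ 2) := by linarith

include hf hf1 in
lemma diag_bound (k : ℕ) :
    μ.real Set.univ - k * ∫ z, (1 - ‖f z.1‖ ^ 2) ∂μ ≤ ∫ z, ‖f z.1‖ ^ (2 * k) ∂μ := by
  have hzS : ∀ z : Metric.sphere (0 : EuclideanSpace ℂ (Fin n)) 1, ‖z.1‖ = 1 := by
    intro z; simp
  have hcf : Continuous (fun z : Metric.sphere (0 : EuclideanSpace ℂ (Fin n)) 1 => f z.1) :=
    hf.continuous.comp continuous_subtype_val
  have h1 : μ.real Set.univ - k * ∫ z, (1 - ‖f z.1‖ ^ 2) ∂μ = ∫ z, (1 - k * (1 - ‖f z.1‖ ^ 2)) ∂μ := by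
    have hI : Integrable (fun z : Metric.sphere (0 : EuclideanSpace ℂ (Fin n)) 1 =>
        (k : ℝ) * (1 - ‖f z.1‖ ^ 2)) μ :=
      integrable_of_cont μ _ (continuous_const.mul (continuous_const.sub (hcf.norm.pow 2)))
    rw [integral_sub (integrable_const _) hI, integral_const, integral_const_mul]
    simp
  rw [h1]
  apply integral_mono
  · exact integrable_of_cont μ _ (continuous_const.sub (continuous_const.mul (continuous_const.sub (hcf.norm.pow 2))))
  · exact integrable_of_cont μ _ (hcf.norm.pow _)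
  · intro z
    have hz := hf1 z.1 (hzS z)
    have h0 := norm_nonneg (f z.1)
    show 1 - k * (1 - ‖f z.1‖ ^ 2) ≤ ‖f z.1‖ ^ (2 * k)
    have := one_add_mul_le_pow (show (-2 : ℝ) ≤ ‖f z.1‖ ^ 2 - 1 by nlinarith) k
    rw [pow_mul]
    rw [show 1 + (‖f z.1‖ ^ 2 - 1) = ‖f z.1‖ ^ 2 by ring] at this
    linarith

include hμ hf hf1 hf0 in
/-- `L²` norm of a polynomial in a nearly inner function -/
lemma l2_lower (N : ℕ) (h : ℕ → ℝ) (hh0 : ∀ k, 0 ≤ h k) (hh1 : ∀ k, h k ≤ 1) :
    (∑ k ∈ range N, h k ^ 2) * μ.real Set.univ -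
      N * N * (‖f 0‖ * μ.real Set.univ + N * ∫ z, (1 - ‖f z.1‖ ^ 2) ∂μ) ≤
    ∫ z, ‖∑ k ∈ range N, (h k : ℂ) * f z.1 ^ k‖ ^ 2 ∂μ := by
  have hzS : ∀ z : Metric.sphere (0 : EuclideanSpace ℂ (Fin n)) 1, ‖z.1‖ = 1 := by
    intro z; simp
  have hcf : Continuous (fun z : Metric.sphere (0 : EuclideanSpace ℂ (Fin n)) 1 => f z.1) :=
    hf.continuous.comp continuous_subtype_val
  set A : ℝ := ∫ z, (1 - ‖f z.1‖ ^ 2) ∂μ with hA
  have hA0 : 0 ≤ A := by
    apply integral_nonneg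
    intro z
    show 0 ≤ 1 - ‖f z.1‖ ^ 2
    have hz := hf1 z.1 (hzS z)
    have h0 := norm_nonneg (f z.1)
    nlinarith
  set V : ℝ := μ.real Set.univ with hV
  have hV0 : 0 ≤ V := measureReal_nonneg
  set B : ℝ := ‖f 0‖ * V + N * A with hB
  have hB0 : 0 ≤ B := by positivity
  have hcont : ∀ j k : ℕ, Continuous (fun z : Metric.sphere (0 : EuclideanSpace ℂ (Fin n)) 1 =>
      f z.1 ^ j * (starRingEnd ℂ) (f z.1 ^ k)) := fun j k =>
    (hcf.pow j).mul (Complex.continuous_conj.comp (hcf.pow k))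
  -- expansion
  have hexp : ((∫ z, ‖∑ k ∈ range N, (h k : ℂ) * f z.1 ^ k‖ ^ 2 ∂μ : ℝ) : ℂ) =
      ∑ j ∈ range N, ∑ k ∈ range N, (h j : ℂ) * (h k : ℂ) *
        ∫ z, f z.1 ^ j * (starRingEnd ℂ) (f z.1 ^ k) ∂μ := by
    rw [← integral_complex_ofReal]
    have h1 : ∀ z : Metric.sphere (0 : EuclideanSpace ℂ (Fin n)) 1,
        ((‖∑ k ∈ range N, (h k : ℂ) * f z.1 ^ k‖ ^ 2 : ℝ) : ℂ) =
        ∑ j ∈ range N, ∑ k ∈ range N, (h j : ℂ) * (h k : ℂ) * (f z.1 ^ j * (starRingEnd ℂ) (f z.1 ^ k)) := by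
      intro z
      rw [← Complex.normSq_eq_norm_sq, ← Complex.mul_conj, map_sum, Finset.sum_mul_sum]
      apply Finset.sum_congr rfl
      intro j _
      apply Finset.sum_congr rfl
      intro k _
      rw [map_mul, Complex.conj_ofReal]
      ring
    rw [integral_congr_ae (Filter.Eventually.of_forall h1)]
    rw [integral_finsetSum]
    · apply Finset.sum_congr rfl
      intro j _
      rw [integral_finsetSum]
      · apply Finset.sum_congr rfl
        intro k _
        rw [integral_const_mul]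
      · intro k _
        exact (integrable_of_contC μ _ (hcont j k)).const_mul _
    · intro j _
      apply integrable_finsetSum
      intro k _
      exact (integrable_of_contC μ _ (hcont j k)).const_mul _
  have hre : (∫ z, ‖∑ k ∈ range N, (h k : ℂ) * f z.1 ^ k‖ ^ 2 ∂μ) =
      ∑ j ∈ range N, ∑ k ∈ range N, h j * h k *
        (∫ z, f z.1 ^ j * (starRingEnd ℂ) (f z.1 ^ k) ∂μ).re := by
    have := congrArg Complex.re hexp
    rw [Complex.ofReal_re, Complex.re_sum] at this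
    rw [this]
    apply Finset.sum_congr rfl
    intro j _
    rw [Complex.re_sum]
    apply Finset.sum_congr rfl
    intro k _
    rw [← Complex.ofReal_mul, Complex.re_ofReal_mul]
  rw [hre]
  -- each term
  have hterm : ∀ j ∈ range N, ∀ k ∈ range N,
      (if j = k then h j * h k * V else 0) - B ≤
        h j * h k * (∫ z, f z.1 ^ j * (starRingEnd ℂ) (f z.1 ^ k) ∂μ).re := by
    intro j hj k hk
    rw [Finset.mem_range] at hj hk
    have hhjk0 : 0 ≤ h j * h k := mul_nonneg (hh0 j) (hh0 k)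
    have hhjk1 : h j * h k ≤ 1 := by
      calc h j * h k ≤ 1 * 1 := mul_le_mul (hh1 j) (hh1 k) (hh0 k) zero_le_one
        _ = 1 := one_mul 1
    have hoff : ∀ a b : ℕ, a < N → b < a →
        ‖∫ z, f z.1 ^ a * (starRingEnd ℂ) (f z.1 ^ b) ∂μ‖ ≤ B := by
      intro a b ha hba
      have := pair_bound μ hμ f hf hf1 hf0 b (a - b) (by omega)
      rw [show b + (a - b) = a by omega] at this
      refine this.trans ?_
      rw [hB]
      have hb : (b : ℝ) ≤ N := by exact_mod_cast (by omega : b ≤ N)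
      have := mul_le_mul_of_nonneg_right hb hA0
      linarith
    by_cases hjk : j = k
    · subst hjk
      rw [if_pos rfl]
      have hd := diag_bound μ f hf hf1 j
      have heq : (∫ z, f z.1 ^ j * (starRingEnd ℂ) (f z.1 ^ j) ∂μ).re = ∫ z, ‖f z.1‖ ^ (2 * j) ∂μ := by
        have h1 : ∀ z : Metric.sphere (0 : EuclideanSpace ℂ (Fin n)) 1,
            f z.1 ^ j * (starRingEnd ℂ) (f z.1 ^ j) = ((‖f z.1‖ ^ (2 * j) : ℝ) : ℂ) := by
          intro z
          rw [Complex.mul_conj, Complex.normSq_eq_norm_sq, norm_pow]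
          push_cast
          ring
        rw [integral_congr_ae (Filter.Eventually.of_forall h1), integral_complex_ofReal, Complex.ofReal_re]
      rw [heq]
      have hjN : (j : ℝ) ≤ N := by exact_mod_cast hj.le
      have h2 : h j * h j * (V - j * A) ≤ h j * h j * ∫ z, ‖f z.1‖ ^ (2 * j) ∂μ :=
        mul_le_mul_of_nonneg_left hd hhjk0
      have h3 : h j * h j * (j * A) ≤ 1 * (N * A) := by
        apply mul_le_mul hhjk1 (mul_le_mul_of_nonneg_right hjN hA0) (by positivity) zero_le_one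
      have h4 : 0 ≤ ‖f 0‖ * V := by positivity
      nlinarith
    · rw [if_neg hjk]
      have hnorm : ‖∫ z, f z.1 ^ j * (starRingEnd ℂ) (f z.1 ^ k) ∂μ‖ ≤ B := by
        rcases lt_or_gt_of_ne hjk with hlt | hgt
        · have h1 : (∫ z, f z.1 ^ j * (starRingEnd ℂ) (f z.1 ^ k) ∂μ) =
              (starRingEnd ℂ) (∫ z, f z.1 ^ k * (starRingEnd ℂ) (f z.1 ^ j) ∂μ) := by
            rw [← integral_conj]
            apply integral_congr_ae
            filter_upwards with z
            rw [map_mul, Complex.conj_conj]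
            ring
          rw [h1, RCLike.norm_conj]
          exact hoff k j hk hlt
        · exact hoff j k hj hgt
      have h1 := (abs_le.1 ((Complex.abs_re_le_norm _).trans hnorm)).1
      have h2 : h j * h k * (-B) ≤ h j * h k * (∫ z, f z.1 ^ j * (starRingEnd ℂ) (f z.1 ^ k) ∂μ).re :=
        mul_le_mul_of_nonneg_left h1 hhjk0
      nlinarith
  have hsum : ∑ j ∈ range N, ∑ k ∈ range N, ((if j = k then h j * h k * V else 0) - B) ≤
      ∑ j ∈ range N, ∑ k ∈ range N, h j * h k *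
        (∫ z, f z.1 ^ j * (starRingEnd ℂ) (f z.1 ^ k) ∂μ).re :=
    Finset.sum_le_sum (fun j hj => Finset.sum_le_sum (fun k hk => hterm j hj k hk))
  refine le_trans (le_of_eq ?_) hsum
  have h5 : ∀ j ∈ range N, ∑ k ∈ range N, ((if j = k then h j * h k * V else 0) - B) = h j ^ 2 * V - N * B := by
    intro j hj
    rw [Finset.sum_sub_distrib, Finset.sum_ite_eq, if_pos hj, Finset.sum_const, Finset.card_range, nsmul_eq_mul]
    ring
  rw [Finset.sum_congr rfl h5, Finset.sum_sub_distrib, ← Finset.sum_mul, Finset.sum_const, Finset.card_range, nsmul_eq_mul]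
  ring

end pair

end Pool.Agent.X106.Ball
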