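import Pool.Agent.X106.Ball.PA

/-!
# A perturbation step in the ball and nearly inner functions
-/

set_option autoImplicit false

namespace Pool.Agent.X106.Ball

open Finset MeasureTheory Filter Topology Helper704.RadBall

variable {n : ℕ}

section avg
variable {ι : Type*} [Fintype ι] [DecidableEq ι]

lemma avg_normSq (F : ℂ) (v : ι → ℂ) :
    ∑ ω : ι → Bool, ‖F + ss ω v‖ ^ 2 =
      (Fintype.card (ι → Bool) : ℝ) * (‖F‖ ^ 2 + ∑ i, ‖v i‖ ^ 2) := by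
  have h1 : ∀ ω : ι → Bool, ‖F + ss ω v‖ ^ 2 =
      ‖F‖ ^ 2 + 2 * ((starRingEnd ℂ) F * ss ω v).re + ‖ss ω v‖ ^ 2 := by
    intro ω
    rw [← Complex.normSq_eq_norm_sq, Complex.normSq_add, Complex.normSq_eq_norm_sq,
      Complex.normSq_eq_norm_sq]
    have : (F * (starRingEnd ℂ) (ss ω v)).re = ((starRingEnd ℂ) F * ss ω v).re := by
      simp [Complex.mul_re]
    rw [this]; ring
  rw [Finset.sum_congr rfl (fun ω _ => h1 ω), Finset.sum_add_distrib, Finset.sum_add_distrib,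
    ← Finset.mul_sum, sum_re_ss, sum_normSq_ss, Finset.sum_const, Finset.card_univ, nsmul_eq_mul]
  ring

end avg

lemma integrable_of_cont (μ : Measure (Metric.sphere (0 : EuclideanSpace ℂ (Fin n)) 1)) [IsFiniteMeasure μ]
    (g : Metric.sphere (0 : EuclideanSpace ℂ (Fin n)) 1 → ℝ) (hg : Continuous g) : Integrable g μ :=
  hg.integrable_of_hasCompactSupport (HasCompactSupport.of_compactSpace g)

/-- general perturbation step -/
theorem gstep (n : ℕ) : ∃ κ : ℝ, 0 < κ ∧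
    ∀ (μ : Measure (Metric.sphere (0 : EuclideanSpace ℂ (Fin n)) 1)) [IsFiniteMeasure μ]
      (F P : EuclideanSpace ℂ (Fin n) → ℂ) (_ : Continuous F) (_ : Continuous P)
      (φ : EuclideanSpace ℂ (Fin n) → ℝ) (_ : Continuous φ) (_ : ∀ z, 0 ≤ φ z) (_ : ∀ z, φ z ≤ 1)
      (_ : ∀ z, ‖z‖ = 1 → 0 < φ z) (ρ η : ℝ) (_ : 0 ≤ ρ) (_ : ρ < 1) (_ : 0 < η),
      ∃ Q : EuclideanSpace ℂ (Fin n) → ℂ, Differentiable ℂ Q ∧ PA Q ∧
        (∀ z, ‖z‖ = 1 → ‖Q z‖ ≤ φ z / 2) ∧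
        (∀ z, ‖z‖ ≤ ρ → ‖Q z‖ ≤ η) ∧
        (∫ z, (2 * ‖F z.1‖ ^ 2 - ‖P z.1‖ ^ 2) ∂μ) + κ * (∫ z, φ z.1 ^ 2 ∂μ) ≤
          ∫ z, (2 * ‖F z.1 + Q z.1‖ ^ 2 - ‖P z.1 + Q z.1‖ ^ 2) ∂μ := by
  obtain ⟨K, hK1, hK⟩ := gaussn n
  have hKpos : 0 < K := by linarith
  set δ : ℝ := 1 / (12 * K) with hδd
  have hδ : 0 < δ := by positivity
  have hδ1 : δ ≤ 1 := by
    rw [hδd, div_le_one (by positivity)]; linarith
  set κ : ℝ := Real.exp (-(n:ℝ) / 2) / 4 with hκ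
  have hκ0 : 0 < κ := by positivity
  refine ⟨δ ^ 2 * κ, by positivity, ?_⟩
  intro μ _ F P hF hP φ hφc hφ0 hφ1 hφpos ρ η hρ hρ1 hη
  have hδK : 2 * K * δ = 1 / 6 := by
    rw [hδd]; field_simp; norm_num
  have ev1 := coef φ hφc hφ0 hφ1 hφpos K hK
  have ev2 : ∀ᶠ M : ℕ in atTop, K * Real.exp (-((M:ℝ) ^ 2 * (1 - ρ ^ 2)) / 2) ≤ η := by
    have ht : Tendsto (fun M : ℕ => K * Real.exp (-((M:ℝ) ^ 2 * (1 - ρ ^ 2)) / 2)) atTop (𝓝 (K * 0)) := by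
      apply Tendsto.const_mul
      apply Real.tendsto_exp_atBot.comp
      have h3 : Tendsto (fun M : ℕ => (M:ℝ) ^ 2) atTop atTop :=
        (tendsto_pow_atTop (two_ne_zero)).comp tendsto_natCast_atTop_atTop
      have h4 : Tendsto (fun M : ℕ => (-((1 - ρ ^ 2) / 2)) * (M:ℝ) ^ 2) atTop atBot :=
        h3.const_mul_atTop_of_neg (by nlinarith)
      refine h4.congr (fun M => by ring)
    rw [mul_zero] at ht
    exact ht.eventually_le_const hη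
  obtain ⟨M, hM1, hM2, hM3⟩ := (ev1.and (ev2.and (eventually_ge_atTop 1))).exists
  have hM0 : 0 < M := hM3
  have hnv : ∀ z : EuclideanSpace ℂ (Fin n), ∀ m : box n M,
      ‖((δ * φ (pt M m.1) : ℝ) : ℂ) * ee M (pt M m.1) z‖ =
        δ * (φ (pt M m.1) * Real.exp (-((M:ℝ) ^ 2 * ‖z - pt M m.1‖ ^ 2) / 2 -
          (M:ℝ) ^ 2 * (1 - ‖z‖ ^ 2) / 2)) := by
    intro z m
    rw [norm_mul, norm_ee, Complex.norm_real, Real.norm_eq_abs, abs_of_nonneg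
      (mul_nonneg hδ.le (hφ0 _))]
    ring
  have hnvS : ∀ z : EuclideanSpace ℂ (Fin n), ‖z‖ = 1 → ∀ m : box n M,
      ‖((δ * φ (pt M m.1) : ℝ) : ℂ) * ee M (pt M m.1) z‖ =
        δ * (φ (pt M m.1) * Real.exp (-((M:ℝ) ^ 2 * ‖z - pt M m.1‖ ^ 2) / 2)) := by
    intro z hz m
    rw [hnv z m, hz]
    congr 3
    ring
  have hsum1 : ∀ z : EuclideanSpace ℂ (Fin n), ‖z‖ = 1 →
      ∑ m : box n M, ‖((δ * φ (pt M m.1) : ℝ) : ℂ) * ee M (pt M m.1) z‖ ≤ φ z / 2 := by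
    intro z hz
    rw [Finset.sum_congr rfl (fun m _ => hnvS z hz m), ← Finset.mul_sum]
    have := (hM1 z hz).1
    rw [← Finset.sum_coe_sort (box n M)] at this
    have h6 := hφ0 z
    calc _ ≤ δ * (2 * K * φ z) := mul_le_mul_of_nonneg_left this hδ.le
      _ = (2 * K * δ) * φ z := by ring
      _ ≤ φ z / 2 := by rw [hδK]; linarith
  have hsum2 : ∀ z : EuclideanSpace ℂ (Fin n), ‖z‖ = 1 →
      δ ^ 2 * (κ * φ z ^ 2) ≤ ∑ m : box n M, ‖((δ * φ (pt M m.1) : ℝ) : ℂ) * ee M (pt M m.1) z‖ ^ 2 := by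
    intro z hz
    rw [Finset.sum_congr rfl (fun m _ => by rw [hnvS z hz m, mul_pow]), ← Finset.mul_sum]
    have := (hM1 z hz).2
    rw [← Finset.sum_coe_sort (box n M)] at this
    exact mul_le_mul_of_nonneg_left this (sq_nonneg _)
  set C : ℝ := (Fintype.card (box n M → Bool) : ℝ) with hC
  have hCpos : 0 < C := by
    rw [hC]; exact_mod_cast Fintype.card_pos
  have hzS : ∀ z : Metric.sphere (0 : EuclideanSpace ℂ (Fin n)) 1, ‖z.1‖ = 1 := by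
    intro z; simpa using z.2
  have hcF : Continuous (fun z : Metric.sphere (0 : EuclideanSpace ℂ (Fin n)) 1 => F z.1) :=
    hF.comp continuous_subtype_val
  have hcP : Continuous (fun z : Metric.sphere (0 : EuclideanSpace ℂ (Fin n)) 1 => P z.1) :=
    hP.comp continuous_subtype_val
  have hcφ : Continuous (fun z : Metric.sphere (0 : EuclideanSpace ℂ (Fin n)) 1 => φ z.1) :=
    hφc.comp continuous_subtype_val
  have hcQ : ∀ ω : box n M → Bool, Continuous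
      (fun z : Metric.sphere (0 : EuclideanSpace ℂ (Fin n)) 1 => pert δ φ M ω z.1) :=
    fun ω => (differentiable_pert δ φ M ω).continuous.comp continuous_subtype_val
  have hc1 : ∀ ω : box n M → Bool, Continuous
      (fun z : Metric.sphere (0 : EuclideanSpace ℂ (Fin n)) 1 =>
        2 * ‖F z.1 + pert δ φ M ω z.1‖ ^ 2 - ‖P z.1 + pert δ φ M ω z.1‖ ^ 2) := by
    intro ω
    exact (continuous_const.mul ((hcF.add (hcQ ω)).norm.pow 2)).sub ((hcP.add (hcQ ω)).norm.pow 2)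
  have hc0 : Continuous
      (fun z : Metric.sphere (0 : EuclideanSpace ℂ (Fin n)) 1 => 2 * ‖F z.1‖ ^ 2 - ‖P z.1‖ ^ 2) :=
    (continuous_const.mul (hcF.norm.pow 2)).sub (hcP.norm.pow 2)
  have hc2 : Continuous
      (fun z : Metric.sphere (0 : EuclideanSpace ℂ (Fin n)) 1 => φ z.1 ^ 2) := hcφ.pow 2
  have hpt : ∀ z : EuclideanSpace ℂ (Fin n), ‖z‖ = 1 →
      C * ((2 * ‖F z‖ ^ 2 - ‖P z‖ ^ 2) + δ ^ 2 * κ * φ z ^ 2) ≤
        ∑ ω : box n M → Bool, (2 * ‖F z + pert δ φ M ω z‖ ^ 2 - ‖P z + pert δ φ M ω z‖ ^ 2) := by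
    intro z hz
    rw [Finset.sum_sub_distrib, ← Finset.mul_sum]
    have h1 := avg_normSq (F z) (fun m : box n M => ((δ * φ (pt M m.1) : ℝ) : ℂ) * ee M (pt M m.1) z)
    have h2 := avg_normSq (P z) (fun m : box n M => ((δ * φ (pt M m.1) : ℝ) : ℂ) * ee M (pt M m.1) z)
    unfold pert
    rw [h1, h2, ← hC]
    have h3 := hsum2 z hz
    have h4 : C * (δ ^ 2 * (κ * φ z ^ 2)) ≤ C * ∑ m : box n M, ‖((δ * φ (pt M m.1) : ℝ) : ℂ) * ee M (pt M m.1) z‖ ^ 2 :=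
      mul_le_mul_of_nonneg_left h3 hCpos.le
    nlinarith
  -- average
  have hav : ∑ _ω : box n M → Bool, ((∫ z, (2 * ‖F z.1‖ ^ 2 - ‖P z.1‖ ^ 2) ∂μ) + δ ^ 2 * κ * (∫ z, φ z.1 ^ 2 ∂μ)) ≤
      ∑ ω : box n M → Bool, (∫ z, (2 * ‖F z.1 + pert δ φ M ω z.1‖ ^ 2 - ‖P z.1 + pert δ φ M ω z.1‖ ^ 2) ∂μ) := by
    rw [← integral_finsetSum _ (fun ω _ => integrable_of_cont μ _ (hc1 ω)),
      Finset.sum_const, Finset.card_univ, nsmul_eq_mul, ← hC,
      ← integral_const_mul, ← integral_add (integrable_of_cont μ _ hc0)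
        ((integrable_of_cont μ _ hc2).const_mul _), ← integral_const_mul]
    apply integral_mono
      (((integrable_of_cont μ _ hc0).add ((integrable_of_cont μ _ hc2).const_mul _)).const_mul _)
      (integrable_finsetSum _ (fun ω _ => integrable_of_cont μ _ (hc1 ω)))
    intro z
    exact hpt z.1 (hzS z)
  obtain ⟨ω, -, hω⟩ := Finset.exists_le_of_sum_le (Finset.univ_nonempty) hav
  refine ⟨pert δ φ M ω, differentiable_pert δ φ M ω, PA.pert δ φ M ω, ?_, ?_, hω⟩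
  · intro z hz
    exact (norm_ss_le _ _).trans (hsum1 z hz)
  · intro z hz
    have h1 : ‖pert δ φ M ω z‖ ≤ ∑ m : box n M, ‖((δ * φ (pt M m.1) : ℝ) : ℂ) * ee M (pt M m.1) z‖ :=
      norm_ss_le _ _
    refine h1.trans (le_trans ?_ hM2)
    rw [Finset.sum_congr rfl (fun m _ => hnv z m)]
    have h2 : ∀ m ∈ (Finset.univ : Finset (box n M)),
        δ * (φ (pt M m.1) * Real.exp (-((M:ℝ) ^ 2 * ‖z - pt M m.1‖ ^ 2) / 2 -
          (M:ℝ) ^ 2 * (1 - ‖z‖ ^ 2) / 2)) ≤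
        Real.exp (-((M:ℝ) ^ 2 * ‖z - pt M m.1‖ ^ 2) / 4) * Real.exp (-((M:ℝ) ^ 2 * (1 - ρ ^ 2)) / 2) := by
      intro m _
      have hz2 : ‖z‖ ^ 2 ≤ ρ ^ 2 := pow_le_pow_left₀ (norm_nonneg z) hz 2
      have hx : 0 ≤ (M:ℝ) ^ 2 * ‖z - pt M m.1‖ ^ 2 := by positivity
      have hy : (M:ℝ) ^ 2 * (1 - ρ ^ 2) ≤ (M:ℝ) ^ 2 * (1 - ‖z‖ ^ 2) := by
        apply mul_le_mul_of_nonneg_left _ (by positivity); linarith
      rw [← Real.exp_add]
      calc δ * (φ (pt M m.1) * Real.exp (-((M:ℝ) ^ 2 * ‖z - pt M m.1‖ ^ 2) / 2 -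
          (M:ℝ) ^ 2 * (1 - ‖z‖ ^ 2) / 2))
          ≤ 1 * (1 * Real.exp (-((M:ℝ) ^ 2 * ‖z - pt M m.1‖ ^ 2) / 2 -
          (M:ℝ) ^ 2 * (1 - ‖z‖ ^ 2) / 2)) := by
            apply mul_le_mul hδ1 _ (mul_nonneg (hφ0 _) (Real.exp_pos _).le) zero_le_one
            exact mul_le_mul_of_nonneg_right (hφ1 _) (Real.exp_pos _).le
        _ ≤ _ := by
            rw [one_mul, one_mul]
            apply Real.exp_le_exp.mpr
            linarith
    refine (Finset.sum_le_sum h2).trans ?_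
    rw [← Finset.sum_mul]
    apply mul_le_mul_of_nonneg_right _ (Real.exp_pos _).le
    have := hK M hM0 z
    rwa [← Finset.sum_coe_sort (box n M)] at this

end Pool.Agent.X106.Ball
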