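import Pool.Agent.X106.Ball.Fill

/-!
# Functions in the ball algebra which are unimodular on a set of positive measure
-/

set_option autoImplicit false

namespace Pool.Agent.X106.Ball

open Finset MeasureTheory Filter Topology

variable {n : ℕ}

/-- maximum principle -/
lemma norm_le_ball [Nontrivial (EuclideanSpace ℂ (Fin n))] (P : EuclideanSpace ℂ (Fin n) → ℂ)
    (hP : Differentiable ℂ P) (b : ℝ) (hb : ∀ z, ‖z‖ = 1 → ‖P z‖ ≤ b) (z : EuclideanSpace ℂ (Fin n))
    (hz : ‖z‖ ≤ 1) : ‖P z‖ ≤ b := by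
  apply Complex.norm_le_of_forall_mem_frontier_norm_le (U := Metric.ball (0 : EuclideanSpace ℂ (Fin n)) 1)
    Metric.isBounded_ball hP.diffContOnCl
  · intro w hw
    have h1 : w ∈ Metric.sphere (0 : EuclideanSpace ℂ (Fin n)) 1 := Metric.frontier_ball_subset_sphere hw
    exact hb w (by simpa using h1)
  · let _ : NormedSpace ℝ (EuclideanSpace ℂ (Fin n)) := NormedSpace.restrictScalars ℝ ℂ _
    rw [closure_ball _ one_ne_zero]
    simpa using hz

/-- Cauchy estimate -/
lemma fderiv_le (P : EuclideanSpace ℂ (Fin n) → ℂ)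
    (hP : Differentiable ℂ P) (b : ℝ) (hb0 : 0 ≤ b) (hb : ∀ z, ‖z‖ ≤ 1 → ‖P z‖ ≤ b) (z : EuclideanSpace ℂ (Fin n))
    (hz : ‖z‖ < 1) : ‖fderiv ℂ P z‖ ≤ b / (1 - ‖z‖) := by
  have hR : 0 < 1 - ‖z‖ := by linarith
  apply ContinuousLinearMap.opNorm_le_bound _ (by positivity)
  intro v
  by_cases hv : v = 0
  · simp [hv]
  have hv0 : 0 < ‖v‖ := norm_pos_iff.2 hv
  have hd : Differentiable ℂ (fun w : ℂ => P (z + w • v)) :=
    hP.comp ((differentiable_const z).add (differentiable_id.smul_const v))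
  have h1 := Complex.norm_deriv_le_of_forall_mem_sphere_norm_le (c := 0) (R := (1 - ‖z‖) / ‖v‖) (C := b)
    (f := fun w : ℂ => P (z + w • v)) (by positivity) hd.diffContOnCl (by
      intro w hw
      apply hb
      rw [mem_sphere_zero_iff_norm] at hw
      refine (norm_add_le _ _).trans ?_
      rw [norm_smul, hw]
      field_simp
      linarith)
  have h2 : deriv (fun w : ℂ => P (z + w • v)) 0 = fderiv ℂ P z v := by
    have h3 : HasFDerivAt P (fderiv ℂ P z) (z + (0 : ℂ) • v) := by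
      rw [zero_smul, add_zero]
      exact (hP z).hasFDerivAt
    have h4 : HasDerivAt (fun w : ℂ => z + w • v) v 0 := by
      have := ((hasDerivAt_id (0 : ℂ)).smul_const v).const_add z
      simpa using this
    exact (h3.comp_hasDerivAt (0 : ℂ) h4).deriv
  rw [h2] at h1
  refine h1.trans (le_of_eq ?_)
  field_simp

lemma series_limit [Nontrivial (EuclideanSpace ℂ (Fin n))] (P : ℕ → EuclideanSpace ℂ (Fin n) → ℂ)
    (hP : ∀ k, Differentiable ℂ (P k)) (b : ℕ → ℝ) (hb : Summable b) (hb0 : ∀ k, 0 ≤ b k)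
    (hPb : ∀ k z, ‖z‖ = 1 → ‖P k z‖ ≤ b k) :
    ContinuousOn (fun z => ∑' k, P k z) (Metric.closedBall 0 1) ∧
      DifferentiableOn ℂ (fun z => ∑' k, P k z) (Metric.ball 0 1) := by
  have hPb' : ∀ k z, ‖z‖ ≤ 1 → ‖P k z‖ ≤ b k := fun k z hz => norm_le_ball (P k) (hP k) (b k) (hPb k) z hz
  constructor
  · apply continuousOn_tsum (fun k => (hP k).continuous.continuousOn) hb
    intro k z hz
    exact hPb' k z (by simpa using hz)
  · intro z hz
    rw [mem_ball_zero_iff] at hz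
    apply DifferentiableAt.differentiableWithinAt
    set r : ℝ := (‖z‖ + 1) / 2 with hr
    have hr1 : r < 1 := by rw [hr]; linarith
    have hzr : ‖z‖ < r := by rw [hr]; linarith
    have hsumm : Summable (fun k => b k / (1 - r)) := hb.div_const _
    let _ : NormedSpace ℝ (EuclideanSpace ℂ (Fin n)) := NormedSpace.restrictScalars ℝ ℂ _
    have h0 : Summable (fun k => P k z) := by
      apply Summable.of_norm_bounded hb
      intro k
      exact hPb' k z hz.le
    have hzmem : z ∈ Metric.ball (0 : EuclideanSpace ℂ (Fin n)) r := by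
      rw [mem_ball_zero_iff]; exact hzr
    have := hasFDerivAt_tsum_of_isPreconnected (𝕜 := ℂ) (f := P) (f' := fun k x => fderiv ℂ (P k) x)
      (s := Metric.ball (0 : EuclideanSpace ℂ (Fin n)) r) (x₀ := z) (x := z) hsumm Metric.isOpen_ball
      (convex_ball _ _).isPreconnected (fun k x _ => (hP k x).hasFDerivAt) (by
        intro k x hx
        rw [mem_ball_zero_iff] at hx
        refine (fderiv_le (P k) (hP k) (b k) (hb0 k) (hPb' k) x (by linarith)).trans ?_
        apply div_le_div_of_nonneg_left (hb0 k) (by linarith) (by linarith)) hzmem h0 hzmem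
    exact this.differentiableAt

theorem unimod (μ : Measure (Metric.sphere (0 : EuclideanSpace ℂ (Fin n)) 1)) [IsFiniteMeasure μ]
    [Nontrivial (EuclideanSpace ℂ (Fin n))] (hV : 0 < μ.real Set.univ) :
    ∃ f : EuclideanSpace ℂ (Fin n) → ℂ, ContinuousOn f (Metric.closedBall 0 1) ∧
      DifferentiableOn ℂ f (Metric.ball 0 1) ∧ ‖f 0‖ ≤ 1 / 4 ∧ μ {ζ | ‖f ζ.1‖ = 1} ≠ 0 := by
  have hzS : ∀ z : Metric.sphere (0 : EuclideanSpace ℂ (Fin n)) 1, ‖z.1‖ = 1 := by
    intro z; simp
  set V : ℝ := μ.real Set.univ with hVdef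
  let T := {f : EuclideanSpace ℂ (Fin n) → ℂ // Differentiable ℂ f ∧ ∀ z, ‖z‖ = 1 → ‖f z‖ < 1}
  let R : ℕ → T → T → Prop := fun k f f' =>
    (∀ z, ‖z‖ = 1 → ‖f'.1 z - f.1 z‖ ≤ 23 * (1 / 2) ^ k) ∧ ‖f'.1 0 - f.1 0‖ ≤ (1 / 2) ^ (k + 3) ∧
    μ.real {z | 1 - ‖f.1 z.1‖ ≤ (1 / 8) ^ k ∧ (1 / 8) ^ (k + 1) < 1 - ‖f'.1 z.1‖} ≤ V * (1 / 2) ^ (k + 3)
  have hnext : ∀ k f, ∃ f', R k f f' := by
    rintro k ⟨f, hfd, hf1⟩
    set δ : ℝ := (1 / 8) ^ k with hδ
    set δ' : ℝ := (1 / 8) ^ (k + 1) with hδ'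
    set b : ℝ := 23 * (1 / 2) ^ k with hb
    have hδ0 : 0 < δ := by positivity
    have hδ'0 : 0 < δ' := by positivity
    have hb0 : 0 < b := by positivity
    have hδ1 : δ ≤ 1 := pow_le_one₀ (by norm_num) (by norm_num)
    have hδδ' : δ' = δ / 8 := by rw [hδ, hδ', pow_succ]; ring
    have hδb : δ ≤ (1 / 2) ^ k := by
      apply pow_le_pow_left₀ (by norm_num) (by norm_num)
    have hcn : Continuous (fun z => ‖f z‖) := hfd.continuous.norm
    obtain ⟨P, hPd, hPA, hP0, hP1, hP2, hP3, hP4⟩ := fill μ f hfd.continuous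
      (fun z => min 1 (‖f z‖ + 2 * δ)) (continuous_const.min (hcn.add continuous_const))
      (fun z hz => lt_min (hf1 z hz) (by linarith)) b hb0 0 ((1 / 2) ^ (k + 3)) (δ' ^ 2 * (V * (1 / 2) ^ (k + 4)))
      le_rfl one_pos (by positivity) (by positivity)
    have hPc : Continuous (fun z : Metric.sphere (0 : EuclideanSpace ℂ (Fin n)) 1 => P z.1) :=
      hPd.continuous.comp continuous_subtype_val
    have hfc : Continuous (fun z : Metric.sphere (0 : EuclideanSpace ℂ (Fin n)) 1 => f z.1) :=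
      hfd.continuous.comp continuous_subtype_val
    refine ⟨⟨fun z => f z + P z, hfd.add hPd, fun z hz => (hP1 z hz).trans_le (min_le_left _ _)⟩, ?_, ?_, ?_⟩
    · intro z hz
      show ‖f z + P z - f z‖ ≤ b
      rw [add_sub_cancel_left]
      exact (hP2 z hz).le
    · show ‖f 0 + P 0 - f 0‖ ≤ (1 / 2) ^ (k + 3)
      rw [add_sub_cancel_left]
      exact hP0 0 (by simp)
    · show μ.real {z | 1 - ‖f z.1‖ ≤ δ ∧ δ' < 1 - ‖f z.1 + P z.1‖} ≤ V * (1 / 2) ^ (k + 3)
      -- the L² bound of P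
      have hτint : ∫ z, ((fun z => min 1 (‖f z‖ + 2 * δ)) z.1 ^ 2 - ‖f z.1‖ ^ 2) ∂μ ≤ 4 * δ * V := by
        have h1 : ∫ z, ((fun z => min 1 (‖f z‖ + 2 * δ)) z.1 ^ 2 - ‖f z.1‖ ^ 2) ∂μ ≤
            ∫ _z : Metric.sphere (0 : EuclideanSpace ℂ (Fin n)) 1, 4 * δ ∂μ := by
          apply integral_mono
          · apply integrable_of_cont μ
            exact ((continuous_const.min (hfc.norm.add continuous_const)).pow 2).sub (hfc.norm.pow 2)
          · exact integrable_const _
          · intro z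
            show min 1 (‖f z.1‖ + 2 * δ) ^ 2 - ‖f z.1‖ ^ 2 ≤ 4 * δ
            have h2 := hf1 z.1 (hzS z)
            have h3 := norm_nonneg (f z.1)
            set t := min 1 (‖f z.1‖ + 2 * δ) with ht
            have h4 : t ≤ 1 := min_le_left _ _
            have h5 : t ≤ ‖f z.1‖ + 2 * δ := min_le_right _ _
            have h6 : ‖f z.1‖ ≤ t := le_min h2.le (by linarith)
            nlinarith
        refine h1.trans (le_of_eq ?_)
        rw [integral_const, smul_eq_mul, ← hVdef]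
        ring
      have hPint : ∫ z, ‖P z.1‖ ^ 2 ∂μ ≤ 8 * δ * V := by
        refine hP4.trans ?_
        linarith
      have hsub : {z : Metric.sphere (0 : EuclideanSpace ℂ (Fin n)) 1 | 1 - ‖f z.1‖ ≤ δ ∧ δ' < 1 - ‖f z.1 + P z.1‖} ⊆
          {z | (b / 2) ^ 2 ≤ ‖P z.1‖ ^ 2} ∪ {z | δ' ^ 2 ≤ room f P (fun z => min 1 (‖f z‖ + 2 * δ)) b z.1 ^ 2} := by
        rintro z ⟨hz1, hz2⟩
        by_cases hPz : b / 2 ≤ ‖P z.1‖
        · left
          exact pow_le_pow_left₀ (by positivity) hPz 2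
        · right
          push Not at hPz
          apply pow_le_pow_left₀ hδ'0.le
          unfold room
          apply le_max_of_le_left
          apply le_min (le_min _ _) _
          · have : min 1 (‖f z.1‖ + 2 * δ) = 1 := min_eq_left (by linarith)
            show δ' ≤ min 1 (‖f z.1‖ + 2 * δ) - ‖f z.1 + P z.1‖
            rw [this]
            exact hz2.le
          · have h1 : 0 < (1 / 2 : ℝ) ^ k := by positivity
            linarith
          · linarith
      have hm1 : μ.real {z : Metric.sphere (0 : EuclideanSpace ℂ (Fin n)) 1 | (b / 2) ^ 2 ≤ ‖P z.1‖ ^ 2} ≤ V * (1 / 2) ^ (k + 4) := by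
        have h1 := mul_meas_ge_le_integral_of_nonneg (μ := μ)
          (f := fun z : Metric.sphere (0 : EuclideanSpace ℂ (Fin n)) 1 => ‖P z.1‖ ^ 2)
          (Eventually.of_forall fun z => by positivity) (integrable_of_cont μ _ (hPc.norm.pow 2)) ((b / 2) ^ 2)
        have h2 : (b / 2) ^ 2 * μ.real {z : Metric.sphere (0 : EuclideanSpace ℂ (Fin n)) 1 | (b / 2) ^ 2 ≤ ‖P z.1‖ ^ 2} ≤ 8 * δ * V :=
          h1.trans hPint
        have h3 : 8 * δ * V ≤ (b / 2) ^ 2 * (V * (1 / 2) ^ (k + 4)) := by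
          have h4 : δ = (1 / 2) ^ k * ((1 / 2) ^ k * (1 / 2) ^ k) := by
            rw [hδ, ← mul_pow, ← mul_pow]; norm_num
          rw [hb, h4, pow_add]
          have h5 : 0 < (1 / 2 : ℝ) ^ k := by positivity
          have h6 : 0 < (1 / 2 : ℝ) ^ k * ((1 / 2) ^ k * (1 / 2) ^ k) * V := by positivity
          nlinarith
        exact le_of_mul_le_mul_left (h2.trans h3) (by positivity)
      have hm2 : μ.real {z : Metric.sphere (0 : EuclideanSpace ℂ (Fin n)) 1 | δ' ^ 2 ≤ room f P (fun z => min 1 (‖f z‖ + 2 * δ)) b z.1 ^ 2} ≤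
          V * (1 / 2) ^ (k + 4) := by
        have hrc : Continuous (room f P (fun z => min 1 (‖f z‖ + 2 * δ)) b) :=
          room_cont hfd.continuous hPd.continuous (continuous_const.min (hcn.add continuous_const))
        have h1 := mul_meas_ge_le_integral_of_nonneg (μ := μ)
          (f := fun z : Metric.sphere (0 : EuclideanSpace ℂ (Fin n)) 1 => room f P (fun z => min 1 (‖f z‖ + 2 * δ)) b z.1 ^ 2)
          (Eventually.of_forall fun z => by positivity)
          (integrable_of_cont μ _ ((hrc.comp continuous_subtype_val).pow 2)) (δ' ^ 2)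
        exact le_of_mul_le_mul_left (h1.trans hP3) (by positivity)
      calc μ.real {z | 1 - ‖f z.1‖ ≤ δ ∧ δ' < 1 - ‖f z.1 + P z.1‖}
          ≤ μ.real ({z | (b / 2) ^ 2 ≤ ‖P z.1‖ ^ 2} ∪ {z | δ' ^ 2 ≤ room f P (fun z => min 1 (‖f z‖ + 2 * δ)) b z.1 ^ 2}) :=
            measureReal_mono hsub
        _ ≤ _ := measureReal_union_le _ _
        _ ≤ V * (1 / 2) ^ (k + 4) + V * (1 / 2) ^ (k + 4) := add_le_add hm1 hm2
        _ = V * (1 / 2) ^ (k + 3) := by rw [pow_succ (1 / 2 : ℝ) (k + 3)]; ring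
  obtain ⟨F, hF0, hF⟩ := Helper704.RadBall.exists_seq R hnext
    ⟨fun _ => 0, differentiable_const 0, fun z _ => by simp⟩
  set P : ℕ → EuclideanSpace ℂ (Fin n) → ℂ := fun k z => (F (k + 1)).1 z - (F k).1 z with hP
  have hPd : ∀ k, Differentiable ℂ (P k) := fun k => (F (k + 1)).2.1.sub (F k).2.1
  have hPb : ∀ k z, ‖z‖ = 1 → ‖P k z‖ ≤ 23 * (1 / 2) ^ k := fun k z hz => (hF k).1 z hz
  have hsum : Summable (fun k : ℕ => 23 * (1 / 2 : ℝ) ^ k) :=
    (summable_geometric_of_lt_one (by norm_num) (by norm_num)).mul_left _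
  obtain ⟨hcont, hdiff⟩ := series_limit P hPd _ hsum (fun k => by positivity) hPb
  refine ⟨fun z => ∑' k, P k z, hcont, hdiff, ?_, ?_⟩
  · show ‖∑' k, P k 0‖ ≤ 1 / 4
    have h1 : ∀ k, ‖P k 0‖ ≤ (1 / 2) ^ (k + 3) := fun k => (hF k).2.1
    have h2 : HasSum (fun k : ℕ => (1 / 2 : ℝ) ^ (k + 3)) (1 / 4) := by
      have := (hasSum_geometric_of_lt_one (show (0 : ℝ) ≤ 1 / 2 by norm_num) (by norm_num)).mul_right ((1 / 2) ^ 3)
      have h3 : ((1 - 1 / 2 : ℝ)⁻¹ * (1 / 2) ^ 3) = 1 / 4 := by norm_num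
      rw [h3] at this
      simpa [pow_add] using this
    exact tsum_of_norm_bounded h2 h1
  · -- the limit is unimodular on the intersection
    set E : Set (Metric.sphere (0 : EuclideanSpace ℂ (Fin n)) 1) := {z | ∀ k, 1 - ‖(F k).1 z.1‖ ≤ (1 / 8) ^ k} with hE
    have hEsub : E ⊆ {ζ : Metric.sphere (0 : EuclideanSpace ℂ (Fin n)) 1 | ‖∑' k, P k ζ.1‖ = 1} := by
      intro z hz
      have hs : Summable (fun k => P k z.1) := Summable.of_norm_bounded hsum (fun k => hPb k z.1 (hzS z))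
      have h1 := hs.hasSum.tendsto_sum_nat
      have h2 : ∀ m, ∑ k ∈ range m, P k z.1 = (F m).1 z.1 := by
        intro m
        show ∑ k ∈ range m, ((F (k + 1)).1 z.1 - (F k).1 z.1) = (F m).1 z.1
        rw [Finset.sum_range_sub (fun k => (F k).1 z.1) m, hF0]
        show (F m).1 z.1 - 0 = _
        rw [sub_zero]
      simp only [h2] at h1
      have h3 := h1.norm
      have h4 : Tendsto (fun m => ‖(F m).1 z.1‖) atTop (𝓝 1) := by
        have h5 : Tendsto (fun m : ℕ => 1 - (1 / 8 : ℝ) ^ m) atTop (𝓝 (1 - 0)) :=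
          tendsto_const_nhds.sub (tendsto_pow_atTop_nhds_zero_of_lt_one (by norm_num) (by norm_num))
        rw [sub_zero] at h5
        refine tendsto_of_tendsto_of_tendsto_of_le_of_le h5 tendsto_const_nhds ?_ ?_
        · intro m
          have := hz m
          show 1 - (1 / 8 : ℝ) ^ m ≤ ‖(F m).1 z.1‖
          linarith
        · intro m
          exact ((F m).2.2 z.1 (hzS z)).le
      exact tendsto_nhds_unique h3 h4
    have hEc : Eᶜ ⊆ ⋃ k, {z | 1 - ‖(F k).1 z.1‖ ≤ (1 / 8) ^ k ∧ (1 / 8) ^ (k + 1) < 1 - ‖(F (k + 1)).1 z.1‖} := by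
      intro z hz
      have hz' : ∃ k, ¬ (1 - ‖(F k).1 z.1‖ ≤ (1 / 8) ^ k) := by
        by_contra hc
        push Not at hc
        exact hz hc
      classical
      set m := Nat.find hz' with hm
      have h1 := Nat.find_spec hz'
      rw [← hm] at h1
      have hm0 : m ≠ 0 := by
        intro h0
        rw [h0, hF0] at h1
        apply h1
        simp
      obtain ⟨j, hj⟩ := Nat.exists_eq_succ_of_ne_zero hm0
      have h2 := Nat.find_min hz' (m := j) (by omega)
      push Not at h2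
      rw [Set.mem_iUnion]
      refine ⟨j, h2, ?_⟩
      rw [hj] at h1
      push Not at h1
      exact h1
    have hμEc : μ Eᶜ ≤ ENNReal.ofReal (V / 4) := by
      refine (measure_mono hEc).trans ((measure_iUnion_le _).trans ?_)
      have h1 : ∀ k, μ {z | 1 - ‖(F k).1 z.1‖ ≤ (1 / 8) ^ k ∧ (1 / 8) ^ (k + 1) < 1 - ‖(F (k + 1)).1 z.1‖} ≤
          ENNReal.ofReal (V * (1 / 2) ^ (k + 3)) := by
        intro k
        have := (hF k).2.2
        rw [← ofReal_measureReal]
        exact ENNReal.ofReal_le_ofReal this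
      refine (ENNReal.tsum_le_tsum h1).trans ?_
      have h2 : HasSum (fun k : ℕ => V * (1 / 2 : ℝ) ^ (k + 3)) (V / 4) := by
        have := (hasSum_geometric_of_lt_one (show (0 : ℝ) ≤ 1 / 2 by norm_num) (by norm_num)).mul_left (V * (1 / 2) ^ 3)
        have h3 : (V * (1 / 2) ^ 3 * (1 - 1 / 2 : ℝ)⁻¹) = V / 4 := by ring
        rw [h3] at this
        refine this.congr_fun ?_ |> fun h => h
        intro k
        ring
      rw [← ENNReal.ofReal_tsum_of_nonneg (fun k => by positivity) h2.summable, h2.tsum_eq]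
    intro h0
    have hE0 : μ E = 0 := measure_mono_null hEsub h0
    have h1 : μ Set.univ ≤ μ E + μ Eᶜ := by
      rw [← Set.union_compl_self E]
      exact measure_union_le _ _
    rw [hE0, zero_add] at h1
    have h2 := h1.trans hμEc
    have h3 : V ≤ V / 4 := by
      have h4 := ENNReal.toReal_mono ENNReal.ofReal_ne_top h2
      rw [ENNReal.toReal_ofReal (by positivity)] at h4
      exact h4
    linarith

end Pool.Agent.X106.Ball
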